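import Mathlib
import Pool.Agent.Lib.MP_2c1b2b_gt.H32.PL

set_option autoImplicit false

/-!
The doubling inequality for Gaussian weights.
-/

open MeasureTheory Set Filter
open scoped ENNReal NNReal Pointwise

namespace Pool.Agent.Lib.MP_2d002d_gt.H29

open Pool.Agent.Lib.MP_2c1b2b_gt.H32

variable {ι : Type*} [Fintype ι]

/-- The Gaussian weight with coefficients `s`. -/
noncomputable def gw (s : ι → ℝ) (x : ι → ℝ) : ℝ≥0∞ :=
  ENNReal.ofReal (Real.exp (-∑ i, s i * x i ^ 2))

/-- The Gaussian-weighted volume of `K`. -/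
noncomputable def G (K : Set (ι → ℝ)) (s : ι → ℝ) : ℝ≥0∞ := ∫⁻ x in K, gw s x

lemma measurable_gw (s : ι → ℝ) : Measurable (gw s) := by
  unfold gw
  fun_prop

/-- The linear equivalence `(u, v) ↦ (u + v, u - v)`. -/
noncomputable def rotE (ι : Type*) [Fintype ι] :
    ((ι → ℝ) × (ι → ℝ)) ≃ₗ[ℝ] ((ι → ℝ) × (ι → ℝ)) where
  toFun p := (p.1 + p.2, p.1 - p.2)
  invFun p := ((1 / 2 : ℝ) • (p.1 + p.2), (1 / 2 : ℝ) • (p.1 - p.2))
  map_add' p q := by
    ext i
    · simp <;> ring
    · simp <;> ring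
  map_smul' c p := by
    ext i
    · simp <;> ring
    · simp <;> ring
  left_inv p := by
    ext i
    · simp <;> ring
    · simp <;> ring
  right_inv p := by
    ext i
    · simp <;> ring
    · simp <;> ring

lemma exists_rot (ι : Type*) [Fintype ι] : ∃ C : ℝ≥0∞, C ≠ 0 ∧ C ≠ ∞ ∧
    ∀ F : (ι → ℝ) → (ι → ℝ) → ℝ≥0∞, Measurable (Function.uncurry F) →
      ∫⁻ u, ∫⁻ v, F (u + v) (u - v) = C * ∫⁻ x, ∫⁻ y, F x y := by
  have : (volume : Measure ((ι → ℝ) × (ι → ℝ))).IsAddHaarMeasure :=
    Measure.prod.instIsAddHaarMeasure _ _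
  have hdet : LinearMap.det (rotE ι : ((ι → ℝ) × (ι → ℝ)) →ₗ[ℝ] ((ι → ℝ) × (ι → ℝ))) ≠ 0 :=
    (LinearEquiv.isUnit_det' (rotE ι)).ne_zero
  refine ⟨ENNReal.ofReal |(LinearMap.det
    (rotE ι : ((ι → ℝ) × (ι → ℝ)) →ₗ[ℝ] ((ι → ℝ) × (ι → ℝ))))⁻¹|, ?_, ENNReal.ofReal_ne_top, ?_⟩
  · rw [Ne, ENNReal.ofReal_eq_zero, not_le]
    exact abs_pos.2 (inv_ne_zero hdet)
  intro F hF
  have hmeas : Measurable (rotE ι : ((ι → ℝ) × (ι → ℝ)) →ₗ[ℝ] ((ι → ℝ) × (ι → ℝ))) :=
    (LinearMap.continuous_of_finiteDimensional _).measurable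
  have h := Measure.map_linearMap_addHaar_eq_smul_addHaar
    (volume : Measure ((ι → ℝ) × (ι → ℝ))) hdet
  have e1 : ∫⁻ x, ∫⁻ y, F x y = ∫⁻ p : (ι → ℝ) × (ι → ℝ), Function.uncurry F p := by
    rw [Measure.volume_eq_prod, lintegral_prod _ hF.aemeasurable]; rfl
  have e2 : ∫⁻ u, ∫⁻ v, F (u + v) (u - v) = ∫⁻ p : (ι → ℝ) × (ι → ℝ), Function.uncurry F
      ((rotE ι : ((ι → ℝ) × (ι → ℝ)) →ₗ[ℝ] ((ι → ℝ) × (ι → ℝ))) p) := by
    rw [Measure.volume_eq_prod]
    exact (lintegral_prod _ (hF.comp hmeas).aemeasurable).symm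
  rw [e1, e2, ← lintegral_map hF hmeas, h, lintegral_smul_measure, smul_eq_mul]

/-- The pointwise inequality behind the doubling step. -/
lemma pointwise_doubling (η u v w : ℝ) :
    4 * (u ^ 2 / Real.cosh η) + 4 * (Real.cosh η * ((v + w) / 2) ^ 2) ≤
      Real.exp η * (u + v) ^ 2 + Real.exp (-η) * (u - v) ^ 2 +
        (Real.exp η * (u - w) ^ 2 + Real.exp (-η) * (u + w) ^ 2) := by
  have hc : 0 < Real.cosh η := Real.cosh_pos η
  have e1 : Real.exp η = Real.cosh η + Real.sinh η := by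
    rw [Real.cosh_add_sinh]
  have e2 : Real.exp (-η) = Real.cosh η - Real.sinh η := by
    rw [Real.cosh_sub_sinh]
  have e3 : Real.sinh η ^ 2 = Real.cosh η ^ 2 - 1 := by
    have := Real.cosh_sq η
    linarith
  rw [e1, e2]
  set c := Real.cosh η
  set S := Real.sinh η
  have key : (c + S) * (u + v) ^ 2 + (c - S) * (u - v) ^ 2 +
        ((c + S) * (u - w) ^ 2 + (c - S) * (u + w) ^ 2) -
        (4 * (u ^ 2 / c) + 4 * (c * ((v + w) / 2) ^ 2)) =
      4 * c * ((v - w) / 2 + S / c * u) ^ 2 := by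
    field_simp
    ring_nf
    rw [e3]
    ring
  have h0 : 0 ≤ 4 * c * ((v - w) / 2 + S / c * u) ^ 2 := by positivity
  linarith

/-- The doubling inequality. -/
theorem doubling {K₁ K₂ K₀ : Set (ι → ℝ)} (h₁ : MeasurableSet K₁) (h₂ : MeasurableSet K₂)
    (h₀ : MeasurableSet K₀) (hK : ∀ x ∈ K₁, ∀ y ∈ K₂, (1 / 2 : ℝ) • (x + y) ∈ K₀)
    {s : ι → ℝ} (hs : ∀ i, 0 ≤ s i) (η : ι → ℝ) :
    G K₁ (fun i => s i * Real.exp (η i)) * G K₂ (fun i => s i * Real.exp (-η i)) ≤
      ∫⁻ x, ∫⁻ y, K₀.indicator 1 x * K₀.indicator 1 y * ENNReal.ofReal (Real.exp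
        (-∑ i, s i * ((x i + y i) ^ 2 / (2 * Real.cosh (η i)) +
          Real.cosh (η i) * (x i - y i) ^ 2 / 2))) := by
  classical
  set s₁ : ι → ℝ := fun i => s i * Real.exp (η i) with hs₁
  set s₂ : ι → ℝ := fun i => s i * Real.exp (-η i) with hs₂
  set F : (ι → ℝ) → (ι → ℝ) → ℝ≥0∞ := fun x y =>
    (K₁.indicator (gw s₁) x) * (K₂.indicator (gw s₂) y) with hF
  set H : (ι → ℝ) → (ι → ℝ) → ℝ≥0∞ := fun x y =>
    K₀.indicator 1 x * K₀.indicator 1 y * ENNReal.ofReal (Real.exp
        (-∑ i, s i * ((x i + y i) ^ 2 / (2 * Real.cosh (η i)) +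
          Real.cosh (η i) * (x i - y i) ^ 2 / 2))) with hH
  have hFm : Measurable (Function.uncurry F) := by
    have a1 : Measurable (K₁.indicator (gw s₁)) := (measurable_gw s₁).indicator h₁
    have a2 : Measurable (K₂.indicator (gw s₂)) := (measurable_gw s₂).indicator h₂
    exact (a1.comp measurable_fst).mul (a2.comp measurable_snd)
  have hHm : Measurable (Function.uncurry H) := by
    have a1 : Measurable (K₀.indicator (1 : (ι → ℝ) → ℝ≥0∞)) := measurable_one.indicator h₀
    refine ((a1.comp measurable_fst).mul (a1.comp measurable_snd)).mul ?_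
    fun_prop
  have e0 : G K₁ s₁ * G K₂ s₂ = ∫⁻ x, ∫⁻ y, F x y := by
    have a1 : Measurable (K₁.indicator (gw s₁)) := (measurable_gw s₁).indicator h₁
    have a2 : Measurable (K₂.indicator (gw s₂)) := (measurable_gw s₂).indicator h₂
    simp only [hF]
    simp_rw [lintegral_const_mul _ a2]
    rw [lintegral_mul_const _ a1, lintegral_indicator h₁, lintegral_indicator h₂]
    rfl
  rw [e0]
  obtain ⟨C, hC0, hCt, hC⟩ := exists_rot ι
  have key : ∫⁻ u, ∫⁻ v, F (u + v) (u - v) ≤ ∫⁻ u, ∫⁻ v, H (u + v) (u - v) := by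
    refine lintegral_mono (fun u => ?_)
    have mF : Measurable (fun v => F (u + v) (u - v)) :=
      hFm.comp ((measurable_const.add measurable_id).prodMk (measurable_const.sub measurable_id))
    have mH : Measurable (fun v => H (u + v) (u - v)) :=
      hHm.comp ((measurable_const.add measurable_id).prodMk (measurable_const.sub measurable_id))
    have mF' : Measurable (fun v => F (u + -v) (u - -v)) := mF.comp measurable_neg
    have hpl := pl_pi ι (1 / 2) (by norm_num) (by norm_num) (fun v => F (u + v) (u - v))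
      (fun v => F (u + -v) (u - -v)) (fun v => H (u + v) (u - v)) mF mF' mH ?_
    · have e1 : ∫⁻ v, F (u + -v) (u - -v) = ∫⁻ v, F (u + v) (u - v) :=
        lintegral_neg_eq_self (fun v => F (u + v) (u - v))
      rw [e1, ← ENNReal.rpow_add_of_nonneg _ _ (by norm_num) (by norm_num)] at hpl
      simpa using hpl
    · intro v w
      have half : (1 : ℝ) - 1 / 2 = 1 / 2 := by norm_num
      rw [half, ← ENNReal.mul_rpow_of_nonneg _ _ (by norm_num : (0 : ℝ) ≤ 1 / 2)]
      by_cases hh : u + v ∈ K₁ ∧ u - v ∈ K₂ ∧ u + -w ∈ K₁ ∧ u - -w ∈ K₂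
      · obtain ⟨m1, m2, m3, m4⟩ := hh
        have n1 : u + ((1 / 2 : ℝ) • v + (1 / 2 : ℝ) • w) ∈ K₀ := by
          have := hK _ m1 _ m4
          convert this using 1
          ext i; simp; ring
        have n2 : u - ((1 / 2 : ℝ) • v + (1 / 2 : ℝ) • w) ∈ K₀ := by
          have := hK _ m3 _ m2
          convert this using 1
          ext i; simp; ring
        simp only [hF, hH, indicator_of_mem m1, indicator_of_mem m2, indicator_of_mem m3,
          indicator_of_mem m4, indicator_of_mem n1, indicator_of_mem n2, Pi.one_apply, one_mul]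
        unfold gw
        rw [← ENNReal.ofReal_mul (Real.exp_pos _).le, ← ENNReal.ofReal_mul (Real.exp_pos _).le,
          ← ENNReal.ofReal_mul (by positivity),
          ENNReal.ofReal_rpow_of_pos (by positivity)]
        refine ENNReal.ofReal_le_ofReal ?_
        rw [← Real.exp_add, ← Real.exp_add, ← Real.exp_add, ← Real.exp_mul]
        refine Real.exp_le_exp.2 ?_
        rw [← neg_add, ← neg_add, ← neg_add, neg_mul, neg_le_neg_iff, ← Finset.sum_add_distrib,
          ← Finset.sum_add_distrib, ← Finset.sum_add_distrib, Finset.sum_mul]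
        refine Finset.sum_le_sum (fun i _ => ?_)
        have hp := pointwise_doubling (η i) (u i) (v i) (w i)
        have hc : 0 < Real.cosh (η i) := Real.cosh_pos _
        have hp' := mul_le_mul_of_nonneg_left hp (hs i)
        simp only [hs₁, hs₂, Pi.add_apply, Pi.sub_apply, Pi.smul_apply, Pi.neg_apply, smul_eq_mul]
        have e5 : s i * ((u i + (1 / 2 * v i + 1 / 2 * w i) +
            (u i - (1 / 2 * v i + 1 / 2 * w i))) ^ 2 / (2 * Real.cosh (η i)) +
            Real.cosh (η i) * (u i + (1 / 2 * v i + 1 / 2 * w i) -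
            (u i - (1 / 2 * v i + 1 / 2 * w i))) ^ 2 / 2) =
            (s i * (4 * (u i ^ 2 / Real.cosh (η i)) +
              4 * (Real.cosh (η i) * ((v i + w i) / 2) ^ 2))) * (1 / 2) := by
          field_simp
          ring
        rw [e5]
        have : u i - -w i = u i + w i := by ring
        rw [this]
        have : u i + -w i = u i - w i := by ring
        rw [this]
        refine le_trans (mul_le_mul_of_nonneg_right hp' (by norm_num)) (le_of_eq ?_)
        ring
      · have : F (u + v) (u - v) * F (u + -w) (u - -w) = 0 := by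
          simp only [hF]
          by_cases m1 : u + v ∈ K₁
          · by_cases m2 : u - v ∈ K₂
            · by_cases m3 : u + -w ∈ K₁
              · by_cases m4 : u - -w ∈ K₂
                · exact absurd ⟨m1, m2, m3, m4⟩ hh
                · rw [indicator_of_notMem m4]; simp
              · rw [indicator_of_notMem m3]; simp
            · rw [indicator_of_notMem m2]; simp
          · rw [indicator_of_notMem m1]; simp
        rw [this, ENNReal.zero_rpow_of_pos (by norm_num)]
        exact bot_le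
  rw [hC F hFm, hC H hHm] at key
  exact (ENNReal.mul_le_mul_iff_right hC0 hCt).1 key

end Pool.Agent.Lib.MP_2d002d_gt.H29
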