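import Mathlib
import Pool.Agent.Lib.MP_2d002d_gt.H29.Doubling

set_option autoImplicit false

/-!
Joint logarithmic concavity of the Gaussian-weighted volume in the body and the log-scales.
-/

open MeasureTheory Set Filter
open scoped ENNReal NNReal Pointwise

namespace Pool.Agent.Lib.MP_2d002d_gt.H29

variable {ι : Type*} [Fintype ι]

/-! ### The four-point iteration -/

lemma fourpoint {f : ℝ → ℝ} {κ h₀ : ℝ}
    (H : ∀ r h : ℝ, 0 ≤ h → h ≤ h₀ → |r| + h ≤ 1 → f (r - h) + f (r + h) ≤ 2 * f r + κ * h ^ 4)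
    (k : ℕ) : ∀ r h : ℝ, 0 ≤ h → h ≤ h₀ → |r| + 2 ^ k * h ≤ 1 →
      f (r - 2 ^ k * h) + f (r + 2 ^ k * h) ≤ 2 * f r + 4 ^ k * (κ * h ^ 4) := by
  induction k with
  | zero => intro r h h1 h2 h3; simpa using H r h h1 h2 (by simpa using h3)
  | succ k ih =>
    intro r h h1 h2 h3
    have hp : 0 ≤ 2 ^ k * h := by positivity
    have e : (2 : ℝ) ^ (k + 1) * h = 2 ^ k * h + 2 ^ k * h := by ring
    rw [e] at h3 ⊢
    have a1 := ih (r - 2 ^ k * h) h h1 h2 (by
      have := abs_sub r (2 ^ k * h)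
      rw [abs_of_nonneg hp] at this
      linarith)
    have a2 := ih (r + 2 ^ k * h) h h1 h2 (by
      have := abs_add_le r (2 ^ k * h)
      rw [abs_of_nonneg hp] at this
      linarith)
    have a3 := ih r h h1 h2 (by linarith)
    have e1 : r - 2 ^ k * h - 2 ^ k * h = r - (2 ^ k * h + 2 ^ k * h) := by ring
    have e2 : r - 2 ^ k * h + 2 ^ k * h = r := by ring
    have e3 : r + 2 ^ k * h - 2 ^ k * h = r := by ring
    have e4 : r + 2 ^ k * h + 2 ^ k * h = r + (2 ^ k * h + 2 ^ k * h) := by ring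
    rw [e1, e2] at a1
    rw [e3, e4] at a2
    have e5 : (4 : ℝ) ^ (k + 1) * (κ * h ^ 4) = 4 * (4 ^ k * (κ * h ^ 4)) := by ring
    rw [e5]
    linarith

lemma midpoint_of_fourpoint {f : ℝ → ℝ} {κ h₀ : ℝ} (hh₀ : 0 < h₀)
    (H : ∀ r h : ℝ, 0 ≤ h → h ≤ h₀ → |r| + h ≤ 1 →
      f (r - h) + f (r + h) ≤ 2 * f r + κ * h ^ 4) :
    f (-1) + f 1 ≤ 2 * f 0 := by
  have h1 : ∀ᶠ k : ℕ in atTop, f (-1) + f 1 ≤ 2 * f 0 + κ * (1 / 4 : ℝ) ^ k := by
    have h2 : Tendsto (fun k : ℕ => (1 / 2 : ℝ) ^ k) atTop (nhds 0) :=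
      tendsto_pow_atTop_nhds_zero_of_lt_one (by norm_num) (by norm_num)
    filter_upwards [h2.eventually (gt_mem_nhds hh₀)] with k hk
    have hpos : (0 : ℝ) ≤ (1 / 2 : ℝ) ^ k := by positivity
    have e0 : (2 : ℝ) ^ k * (1 / 2 : ℝ) ^ k = 1 := by
      rw [← mul_pow]; norm_num
    have a := fourpoint H k 0 ((1 / 2 : ℝ) ^ k) hpos hk.le (by rw [e0]; simp)
    rw [e0] at a
    have e1 : (4 : ℝ) ^ k * (κ * ((1 / 2 : ℝ) ^ k) ^ 4) = κ * (1 / 4 : ℝ) ^ k := by
      have : ((1 / 2 : ℝ) ^ k) ^ 4 = (1 / 16 : ℝ) ^ k := by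
        rw [← pow_mul, mul_comm k 4, pow_mul]; norm_num
      rw [this]
      have : (4 : ℝ) ^ k * (1 / 16 : ℝ) ^ k = (1 / 4 : ℝ) ^ k := by
        rw [← mul_pow]; norm_num
      calc (4 : ℝ) ^ k * (κ * (1 / 16 : ℝ) ^ k) = κ * ((4 : ℝ) ^ k * (1 / 16 : ℝ) ^ k) := by ring
        _ = _ := by rw [this]
    rw [e1] at a
    simpa using a
  have h3 : Tendsto (fun k : ℕ => 2 * f 0 + κ * (1 / 4 : ℝ) ^ k) atTop
      (nhds (2 * f 0 + κ * 0)) :=
    (tendsto_pow_atTop_nhds_zero_of_lt_one (by norm_num) (by norm_num)).const_mul κ |>.const_add _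
  have := ge_of_tendsto h3 h1
  simpa using this

/-! ### Elementary estimates -/

lemma cosh_le_of_nonneg {y : ℝ} (hy : 0 ≤ y) : Real.cosh y ≤ 1 + y ^ 2 * Real.exp y := by
  have h1 : Real.cosh y = 1 + 2 * Real.sinh (y / 2) ^ 2 := by
    have : y = 2 * (y / 2) := by ring
    rw [this, Real.cosh_two_mul]
    have := Real.cosh_sq (y / 2)
    simp only [mul_div_cancel_left₀ _ (two_ne_zero' ℝ)]
    linarith
  have h2 : 0 ≤ Real.sinh (y / 2) := Real.sinh_nonneg_iff.2 (by linarith)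
  have h3 : Real.sinh (y / 2) ≤ y / 2 * Real.exp (y / 2) := by
    rw [Real.sinh_eq]
    have a := Real.add_one_le_exp (-y)
    have e1 : Real.exp (-(y / 2)) = Real.exp (y / 2) * Real.exp (-y) := by
      rw [← Real.exp_add]; congr 1; ring
    rw [e1]
    nlinarith [Real.exp_pos (y / 2)]
  have h4 : Real.sinh (y / 2) ^ 2 ≤ (y / 2 * Real.exp (y / 2)) ^ 2 := by
    exact pow_le_pow_left₀ h2 h3 2
  have h5 : (y / 2 * Real.exp (y / 2)) ^ 2 = y ^ 2 / 4 * Real.exp y := by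
    rw [mul_pow, ← Real.exp_nat_mul]
    have : ((2 : ℕ) : ℝ) * (y / 2) = y := by push_cast; ring
    rw [this]; ring
  rw [h1]
  rw [h5] at h4
  nlinarith [mul_nonneg (sq_nonneg y) (Real.exp_pos y).le]

lemma cosh_bound {R δ r : ℝ} (hr : 0 ≤ r) (_hδ0 : 0 ≤ δ) (hδ : δ ≤ 1 / 4) (hR : |R| ≤ δ * r) :
    Real.cosh R ≤ 1 + 32 * δ ^ 2 * Real.exp (r / 2) := by
  rw [← Real.cosh_abs]
  refine (cosh_le_of_nonneg (abs_nonneg R)).trans ?_
  have h1 : |R| ^ 2 ≤ (δ * r) ^ 2 := pow_le_pow_left₀ (abs_nonneg R) hR 2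
  have h2 : Real.exp |R| ≤ Real.exp (r / 4) := by
    refine Real.exp_le_exp.2 (hR.trans ?_)
    nlinarith
  have h3 : r ^ 2 ≤ 32 * Real.exp (r / 4) := by
    have := Real.quadratic_le_exp_of_nonneg (show (0 : ℝ) ≤ r / 4 by positivity)
    nlinarith
  have h4 : |R| ^ 2 * Real.exp |R| ≤ (δ * r) ^ 2 * Real.exp (r / 4) :=
    mul_le_mul h1 h2 (Real.exp_pos _).le (sq_nonneg _)
  have h5 : (δ * r) ^ 2 * Real.exp (r / 4) ≤ 32 * δ ^ 2 * Real.exp (r / 2) := by
    have e : Real.exp (r / 2) = Real.exp (r / 4) * Real.exp (r / 4) := by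
      rw [← Real.exp_add]; congr 1; ring
    rw [e]
    have := mul_le_mul_of_nonneg_left h3 (mul_nonneg (sq_nonneg δ) (Real.exp_pos (r / 4)).le)
    nlinarith
  linarith

/-- `(c - 1/c)/2 ≤ η²` for `c = cosh η`, `|η| ≤ 1`. -/
lemma beta_bound {η : ℝ} (hη : η ^ 2 ≤ 1) :
    (Real.cosh η - 1 / Real.cosh η) / 2 ≤ η ^ 2 := by
  have hc : 0 < Real.cosh η := Real.cosh_pos η
  have hc1 : 1 ≤ Real.cosh η := Real.one_le_cosh η
  have h1 : Real.cosh η ≤ Real.exp (η ^ 2 / 2) := Real.cosh_le_exp_half_sq η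
  have h2 : Real.exp (η ^ 2 / 2) - 1 ≤ 2 * (η ^ 2 / 2) := by
    have := Real.abs_exp_sub_one_le (x := η ^ 2 / 2) (by rw [abs_of_nonneg (by positivity)]; linarith)
    rw [abs_of_nonneg (show 0 ≤ η ^ 2 / 2 by positivity)] at this
    exact (le_abs_self _).trans this
  have h3 : 1 - 1 / Real.cosh η ≤ Real.cosh η - 1 := by
    rw [sub_le_iff_le_add, ← sub_le_iff_le_add']
    have : 1 / Real.cosh η ≥ 2 - Real.cosh η := by
      rw [ge_iff_le, le_div_iff₀ hc]
      nlinarith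
    linarith
  linarith

lemma beta_nonneg (η : ℝ) : 0 ≤ (Real.cosh η - 1 / Real.cosh η) / 2 := by
  have hc : 0 < Real.cosh η := Real.cosh_pos η
  have hc1 : 1 ≤ Real.cosh η := Real.one_le_cosh η
  have : 1 / Real.cosh η ≤ 1 := by
    rw [div_le_one hc]; exact hc1
  linarith

lemma alpha_ge_one (η : ℝ) : 1 ≤ (Real.cosh η + 1 / Real.cosh η) / 2 := by
  have hc : 0 < Real.cosh η := Real.cosh_pos η
  have : 2 - Real.cosh η ≤ 1 / Real.cosh η := by
    rw [le_div_iff₀ hc]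
    nlinarith [sq_nonneg (Real.cosh η - 1)]
  linarith

/-! ### Scaling -/

lemma lintegral_comp_smul' {r : ℝ} (hr : r ≠ 0) {f : (ι → ℝ) → ℝ≥0∞} (hf : Measurable f) :
    ∫⁻ x, f (r • x) = ENNReal.ofReal |(r ^ Fintype.card ι)⁻¹| * ∫⁻ x, f x := by
  have h := Measure.map_addHaar_smul (volume : Measure (ι → ℝ)) hr
  rw [Module.finrank_fintype_fun_eq_card] at h
  rw [← lintegral_map hf (measurable_const_smul r), h, lintegral_smul_measure, smul_eq_mul]


lemma G_half_le {K : Set (ι → ℝ)} (hK : MeasurableSet K)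
    (hsc : ∀ x, (Real.sqrt 2) • x ∈ K → x ∈ K) (s : ι → ℝ) :
    G K (fun i => s i / 2) ≤ ENNReal.ofReal (Real.sqrt 2 ^ Fintype.card ι) * G K s := by
  have h2 : (0 : ℝ) < Real.sqrt 2 := Real.sqrt_pos.2 (by norm_num)
  have hm : Measurable (K.indicator (gw (fun i => s i / 2))) := (measurable_gw _).indicator hK
  have h := lintegral_comp_smul' (ι := ι) h2.ne' hm
  have h3 : ∫⁻ x, K.indicator (gw (fun i => s i / 2)) (Real.sqrt 2 • x) ≤ G K s := by
    unfold G
    rw [← lintegral_indicator hK]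
    refine lintegral_mono (fun x => ?_)
    by_cases hx : Real.sqrt 2 • x ∈ K
    · simp only [indicator_of_mem hx, indicator_of_mem (hsc x hx)]
      unfold gw
      refine ENNReal.ofReal_le_ofReal (Real.exp_le_exp.2 (le_of_eq ?_))
      congr 1
      refine Finset.sum_congr rfl (fun i _ => ?_)
      simp only [Pi.smul_apply, smul_eq_mul, mul_pow, Real.sq_sqrt (show (0 : ℝ) ≤ 2 by norm_num)]
      ring
    · simp only [indicator_of_notMem hx]
      exact bot_le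
  rw [h, lintegral_indicator hK] at h3
  have h4 : ENNReal.ofReal (Real.sqrt 2 ^ Fintype.card ι) *
      ENNReal.ofReal |(Real.sqrt 2 ^ Fintype.card ι)⁻¹| = 1 := by
    rw [abs_of_pos (by positivity), ← ENNReal.ofReal_mul (by positivity),
      mul_inv_cancel₀ (by positivity), ENNReal.ofReal_one]
  calc G K (fun i => s i / 2)
      = ENNReal.ofReal (Real.sqrt 2 ^ Fintype.card ι) *
        (ENNReal.ofReal |(Real.sqrt 2 ^ Fintype.card ι)⁻¹| * G K (fun i => s i / 2)) := by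
        rw [← mul_assoc, h4, one_mul]
    _ ≤ _ := by gcongr; exact h3

/-- Pointwise symmetrised estimate. -/
lemma pointwise_sym {s η : ι → ℝ} (hs : ∀ i, 0 ≤ s i) {δ : ℝ} (hδ0 : 0 ≤ δ) (hδ : δ ≤ 1 / 4)
    (hη : ∀ i, (Real.cosh (η i) - 1 / Real.cosh (η i)) / 2 ≤ δ) (x y : ι → ℝ) :
    Real.exp (-∑ i, s i * ((x i + y i) ^ 2 / (2 * Real.cosh (η i)) +
          Real.cosh (η i) * (x i - y i) ^ 2 / 2)) +
      Real.exp (-∑ i, s i * ((x i + (-y) i) ^ 2 / (2 * Real.cosh (η i)) +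
          Real.cosh (η i) * (x i - (-y) i) ^ 2 / 2)) ≤
      2 * (Real.exp (-∑ i, s i * x i ^ 2) * Real.exp (-∑ i, s i * y i ^ 2) +
        32 * δ ^ 2 * (Real.exp (-∑ i, s i / 2 * x i ^ 2) *
          Real.exp (-∑ i, s i / 2 * y i ^ 2))) := by
  set P := ∑ i, s i * x i ^ 2 with hP
  set P' := ∑ i, s i * y i ^ 2 with hP'
  set R := ∑ i, 2 * (s i * ((Real.cosh (η i) - 1 / Real.cosh (η i)) / 2) * (x i * y i)) with hR
  have hP0 : 0 ≤ P := Finset.sum_nonneg (fun i _ => mul_nonneg (hs i) (sq_nonneg _))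
  have hP0' : 0 ≤ P' := Finset.sum_nonneg (fun i _ => mul_nonneg (hs i) (sq_nonneg _))
  have e1 : -∑ i, s i * ((x i + y i) ^ 2 / (2 * Real.cosh (η i)) +
          Real.cosh (η i) * (x i - y i) ^ 2 / 2) ≤ -(P + P') + R := by
    rw [hP, hP', hR, ← Finset.sum_add_distrib, ← sub_eq_neg_add, ← neg_sub, neg_le_neg_iff,
      ← Finset.sum_sub_distrib]
    refine Finset.sum_le_sum (fun i _ => ?_)
    have hc : 0 < Real.cosh (η i) := Real.cosh_pos _
    have ha := alpha_ge_one (η i)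
    have e : s i * ((x i + y i) ^ 2 / (2 * Real.cosh (η i)) +
          Real.cosh (η i) * (x i - y i) ^ 2 / 2) =
        (s i * (x i ^ 2 + y i ^ 2)) * ((Real.cosh (η i) + 1 / Real.cosh (η i)) / 2) -
          2 * (s i * ((Real.cosh (η i) - 1 / Real.cosh (η i)) / 2) * (x i * y i)) := by
      field_simp; ring
    rw [e]
    have h0 : 0 ≤ s i * (x i ^ 2 + y i ^ 2) := mul_nonneg (hs i) (by positivity)
    nlinarith [mul_le_mul_of_nonneg_left ha h0]
  have e2 : -∑ i, s i * ((x i + (-y) i) ^ 2 / (2 * Real.cosh (η i)) +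
          Real.cosh (η i) * (x i - (-y) i) ^ 2 / 2) ≤ -(P + P') - R := by
    rw [hP, hP', hR, ← Finset.sum_add_distrib, sub_eq_add_neg, ← neg_add, neg_le_neg_iff,
      ← Finset.sum_add_distrib]
    refine Finset.sum_le_sum (fun i _ => ?_)
    have hc : 0 < Real.cosh (η i) := Real.cosh_pos _
    have ha := alpha_ge_one (η i)
    have e : s i * ((x i + (-y) i) ^ 2 / (2 * Real.cosh (η i)) +
          Real.cosh (η i) * (x i - (-y) i) ^ 2 / 2) =
        (s i * (x i ^ 2 + y i ^ 2)) * ((Real.cosh (η i) + 1 / Real.cosh (η i)) / 2) +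
          2 * (s i * ((Real.cosh (η i) - 1 / Real.cosh (η i)) / 2) * (x i * y i)) := by
      simp only [Pi.neg_apply]
      field_simp; ring
    rw [e]
    have h0 : 0 ≤ s i * (x i ^ 2 + y i ^ 2) := mul_nonneg (hs i) (by positivity)
    nlinarith [mul_le_mul_of_nonneg_left ha h0]
  have hRabs : |R| ≤ δ * (P + P') := by
    rw [hP, hP', hR, ← Finset.sum_add_distrib, Finset.mul_sum]
    refine (Finset.abs_sum_le_sum_abs _ _).trans (Finset.sum_le_sum (fun i _ => ?_))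
    have hb := beta_nonneg (η i)
    have h1 : |2 * (s i * ((Real.cosh (η i) - 1 / Real.cosh (η i)) / 2) * (x i * y i))| =
        s i * ((Real.cosh (η i) - 1 / Real.cosh (η i)) / 2) * (2 * |x i * y i|) := by
      rw [abs_mul, abs_mul, abs_mul, abs_of_nonneg (hs i), abs_of_nonneg hb]
      simp; ring
    rw [h1]
    have h2 : 2 * |x i * y i| ≤ x i ^ 2 + y i ^ 2 := by
      rw [abs_mul]
      nlinarith [sq_nonneg (|x i| - |y i|), sq_abs (x i), sq_abs (y i)]
    calc s i * ((Real.cosh (η i) - 1 / Real.cosh (η i)) / 2) * (2 * |x i * y i|)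
        ≤ s i * δ * (x i ^ 2 + y i ^ 2) := by
          refine mul_le_mul (mul_le_mul_of_nonneg_left (hη i) (hs i)) h2 (by positivity)
            (mul_nonneg (hs i) hδ0)
      _ = δ * (s i * x i ^ 2 + s i * y i ^ 2) := by ring
  have hcosh := cosh_bound (add_nonneg hP0 hP0') hδ0 hδ hRabs
  have f1 : Real.exp (-(P + P') + R) + Real.exp (-(P + P') - R) =
      2 * (Real.exp (-(P + P')) * Real.cosh R) := by
    rw [Real.cosh_eq, sub_eq_add_neg, Real.exp_add, Real.exp_add]; ring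
  have f2 : Real.exp (-(P + P')) * (1 + 32 * δ ^ 2 * Real.exp ((P + P') / 2)) =
      Real.exp (-P) * Real.exp (-P') + 32 * δ ^ 2 * (Real.exp (-∑ i, s i / 2 * x i ^ 2) *
          Real.exp (-∑ i, s i / 2 * y i ^ 2)) := by
    have g1 : ∑ i, s i / 2 * x i ^ 2 = P / 2 := by
      rw [hP, Finset.sum_div]; refine Finset.sum_congr rfl (fun i _ => by ring)
    have g2 : ∑ i, s i / 2 * y i ^ 2 = P' / 2 := by
      rw [hP', Finset.sum_div]; refine Finset.sum_congr rfl (fun i _ => by ring)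
    rw [g1, g2, mul_add, mul_one, ← Real.exp_add, ← Real.exp_add]
    have g3 : Real.exp (-(P / 2) + -(P' / 2)) = Real.exp (-(P + P')) * Real.exp ((P + P') / 2) := by
      rw [← Real.exp_add]; congr 1; ring
    rw [g3, neg_add]; ring
  calc _ ≤ Real.exp (-(P + P') + R) + Real.exp (-(P + P') - R) :=
        add_le_add (Real.exp_le_exp.2 e1) (Real.exp_le_exp.2 e2)
    _ = 2 * (Real.exp (-(P + P')) * Real.cosh R) := f1
    _ ≤ 2 * (Real.exp (-(P + P')) * (1 + 32 * δ ^ 2 * Real.exp ((P + P') / 2))) := by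
        gcongr
    _ = _ := by rw [f2]



/-- The kernel of the doubled integral. -/
noncomputable def kerA (s η x y : ι → ℝ) : ℝ≥0∞ := ENNReal.ofReal (Real.exp
        (-∑ i, s i * ((x i + y i) ^ 2 / (2 * Real.cosh (η i)) +
          Real.cosh (η i) * (x i - y i) ^ 2 / 2)))

lemma measurable_kerA (s η : ι → ℝ) : Measurable (Function.uncurry (kerA s η)) := by
  unfold Function.uncurry kerA
  fun_prop

lemma kerA_sym {s η : ι → ℝ} (hs : ∀ i, 0 ≤ s i) {δ : ℝ} (hδ0 : 0 ≤ δ) (hδ : δ ≤ 1 / 4)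
    (hη : ∀ i, (Real.cosh (η i) - 1 / Real.cosh (η i)) / 2 ≤ δ) (x y : ι → ℝ) :
    kerA s η x y + kerA s η x (-y) ≤ 2 * (gw s x * gw s y) +
      2 * ENNReal.ofReal (32 * δ ^ 2) * (gw (fun i => s i / 2) x * gw (fun i => s i / 2) y) := by
  unfold gw kerA
  rw [← ENNReal.ofReal_add (Real.exp_pos _).le (Real.exp_pos _).le,
    ← ENNReal.ofReal_mul (Real.exp_pos _).le,
    ← ENNReal.ofReal_mul (Real.exp_pos _).le]
  have e2 : (2 : ℝ≥0∞) = ENNReal.ofReal 2 := by simp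
  rw [e2, ← ENNReal.ofReal_mul (by norm_num), ← ENNReal.ofReal_mul (by norm_num),
    ← ENNReal.ofReal_mul (by positivity), ← ENNReal.ofReal_add (by positivity) (by positivity)]
  refine ENNReal.ofReal_le_ofReal ?_
  have := pointwise_sym hs hδ0 hδ hη x y
  linarith

lemma lintegral_lintegral_mul_self (g : (ι → ℝ) → ℝ≥0∞) (hg : Measurable g) (c : ℝ≥0∞) :
    ∫⁻ x, ∫⁻ y, c * (g x * g y) = c * ((∫⁻ x, g x) * ∫⁻ x, g x) := by
  have : ∀ x, ∫⁻ y, c * (g x * g y) = c * g x * ∫⁻ y, g y := by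
    intro x
    rw [← lintegral_const_mul _ hg]
    refine lintegral_congr (fun y => by ring)
  simp_rw [this]
  rw [lintegral_mul_const _ (hg.const_mul c), lintegral_const_mul _ hg, mul_assoc]

omit [Fintype ι] in
lemma indicator_neg_eq {K : Set (ι → ℝ)} (hsym : ∀ x ∈ K, -x ∈ K) (y : ι → ℝ) :
    K.indicator (1 : (ι → ℝ) → ℝ≥0∞) (-y) = K.indicator 1 y := by
  by_cases hy : y ∈ K
  · rw [indicator_of_mem hy, indicator_of_mem (hsym y hy)]; rfl
  · have : -y ∉ K := fun h => hy (by simpa using hsym _ h)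
    rw [indicator_of_notMem hy, indicator_of_notMem this]

lemma double_sum {K : Set (ι → ℝ)} (hK : MeasurableSet K) (hsym : ∀ x ∈ K, -x ∈ K)
    {s η : ι → ℝ} (hs : ∀ i, 0 ≤ s i) {δ : ℝ} (hδ0 : 0 ≤ δ) (hδ : δ ≤ 1 / 4)
    (hη : ∀ i, (Real.cosh (η i) - 1 / Real.cosh (η i)) / 2 ≤ δ) :
    2 * ∫⁻ x, ∫⁻ y, K.indicator 1 x * K.indicator 1 y * kerA s η x y ≤
      ∫⁻ x, ∫⁻ y, (2 * (K.indicator (gw s) x * K.indicator (gw s) y) +
      2 * ENNReal.ofReal (32 * δ ^ 2) * (K.indicator (gw (fun i => s i / 2)) x *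
        K.indicator (gw (fun i => s i / 2)) y)) := by
  have mI : Measurable (K.indicator (1 : (ι → ℝ) → ℝ≥0∞)) := measurable_one.indicator hK
  have mF : Measurable (Function.uncurry (fun x y : ι → ℝ =>
      K.indicator (1 : (ι → ℝ) → ℝ≥0∞) x * K.indicator (1 : (ι → ℝ) → ℝ≥0∞) y *
        kerA s η x y)) :=
    ((mI.comp measurable_fst).mul (mI.comp measurable_snd)).mul (measurable_kerA s η)
  have hI' : ∫⁻ x, ∫⁻ y, K.indicator (1 : (ι → ℝ) → ℝ≥0∞) x *
        K.indicator (1 : (ι → ℝ) → ℝ≥0∞) y * kerA s η x y =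
      ∫⁻ x, ∫⁻ y, K.indicator (1 : (ι → ℝ) → ℝ≥0∞) x *
        K.indicator (1 : (ι → ℝ) → ℝ≥0∞) y * kerA s η x (-y) := by
    refine lintegral_congr (fun x => ?_)
    have := lintegral_neg_eq_self (fun y => K.indicator (1 : (ι → ℝ) → ℝ≥0∞) x *
      K.indicator (1 : (ι → ℝ) → ℝ≥0∞) y * kerA s η x y) (μ := volume)
    rw [← this]
    refine lintegral_congr (fun y => ?_)
    rw [indicator_neg_eq hsym]
  rw [two_mul]
  nth_rewrite 2 [hI']
  rw [← lintegral_add_left mF.lintegral_prod_right]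
  refine lintegral_mono (fun x => ?_)
  change (∫⁻ y, K.indicator (1 : (ι → ℝ) → ℝ≥0∞) x *
        K.indicator (1 : (ι → ℝ) → ℝ≥0∞) y * kerA s η x y) + _ ≤ _
  have mFx : Measurable (fun y : ι → ℝ => K.indicator (1 : (ι → ℝ) → ℝ≥0∞) x *
        K.indicator (1 : (ι → ℝ) → ℝ≥0∞) y * kerA s η x y) := mF.comp measurable_prodMk_left
  rw [← lintegral_add_left mFx]
  refine lintegral_mono (fun y => ?_)
  change K.indicator (1 : (ι → ℝ) → ℝ≥0∞) x *
        K.indicator (1 : (ι → ℝ) → ℝ≥0∞) y * kerA s η x y + _ ≤ _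
  by_cases hx : x ∈ K
  · by_cases hy : y ∈ K
    · simp only [indicator_of_mem hx, indicator_of_mem hy, Pi.one_apply, one_mul]
      exact kerA_sym hs hδ0 hδ hη x y
    · simp [indicator_of_notMem hy]
  · simp [indicator_of_notMem hx]

lemma double_eval {K : Set (ι → ℝ)} (hK : MeasurableSet K) (s : ι → ℝ) (c d : ℝ≥0∞) :
    ∫⁻ x, ∫⁻ y, (c * (K.indicator (gw s) x * K.indicator (gw s) y) +
      d * (K.indicator (gw (fun i => s i / 2)) x *
        K.indicator (gw (fun i => s i / 2)) y)) =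
      c * (G K s * G K s) + d *
        (G K (fun i => s i / 2) * G K (fun i => s i / 2)) := by
  have mg : Measurable (K.indicator (gw s)) := (measurable_gw s).indicator hK
  have mg' : Measurable (K.indicator (gw (fun i => s i / 2))) := (measurable_gw _).indicator hK
  have : ∀ x, ∫⁻ y, (c * (K.indicator (gw s) x * K.indicator (gw s) y) +
      d * (K.indicator (gw (fun i => s i / 2)) x *
        K.indicator (gw (fun i => s i / 2)) y)) =
        (∫⁻ y, c * (K.indicator (gw s) x * K.indicator (gw s) y)) +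
        ∫⁻ y, d * (K.indicator (gw (fun i => s i / 2)) x *
        K.indicator (gw (fun i => s i / 2)) y) := by
      intro x
      rw [lintegral_add_left ((mg.const_mul _).const_mul _)]
  simp_rw [this]
  have hm : Measurable (Function.uncurry (fun x y : ι → ℝ =>
        c * (K.indicator (gw s) x * K.indicator (gw s) y))) :=
        ((mg.comp measurable_fst).mul (mg.comp measurable_snd)).const_mul c
  rw [lintegral_add_left hm.lintegral_prod_right, lintegral_lintegral_mul_self _ mg,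
    lintegral_lintegral_mul_self _ mg', lintegral_indicator hK, lintegral_indicator hK]
  rfl

theorem double_bound {K : Set (ι → ℝ)} (hK : MeasurableSet K) (hsym : ∀ x ∈ K, -x ∈ K)
    (hsc : ∀ x, (Real.sqrt 2) • x ∈ K → x ∈ K)
    {s η : ι → ℝ} (hs : ∀ i, 0 ≤ s i) {δ : ℝ} (hδ0 : 0 ≤ δ) (hδ : δ ≤ 1 / 4)
    (hη : ∀ i, (Real.cosh (η i) - 1 / Real.cosh (η i)) / 2 ≤ δ) :
    ∫⁻ x, ∫⁻ y, K.indicator 1 x * K.indicator 1 y * kerA s η x y ≤
      (1 + ENNReal.ofReal (32 * δ ^ 2 * 2 ^ Fintype.card ι)) * (G K s * G K s) := by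
  have hsum := double_sum hK hsym hs hδ0 hδ hη
  rw [double_eval hK] at hsum
  have hhalf := G_half_le hK hsc s
  have hCC : ENNReal.ofReal (Real.sqrt 2 ^ Fintype.card ι) *
      ENNReal.ofReal (Real.sqrt 2 ^ Fintype.card ι) = ENNReal.ofReal (2 ^ Fintype.card ι) := by
    rw [← ENNReal.ofReal_mul (by positivity), ← mul_pow,
      Real.mul_self_sqrt (by norm_num)]
  have h1 : G K (fun i => s i / 2) * G K (fun i => s i / 2) ≤
      ENNReal.ofReal (2 ^ Fintype.card ι) * (G K s * G K s) := by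
    refine (mul_le_mul' hhalf hhalf).trans (le_of_eq ?_)
    rw [← hCC]; ring
  have h2 : 2 * ∫⁻ x, ∫⁻ y, K.indicator 1 x * K.indicator 1 y * kerA s η x y ≤
      2 * ((1 + ENNReal.ofReal (32 * δ ^ 2 * 2 ^ Fintype.card ι)) *
      (G K s * G K s)) := by
    refine hsum.trans ?_
    rw [ENNReal.ofReal_mul (by positivity : (0 : ℝ) ≤ 32 * δ ^ 2)]
    refine (add_le_add le_rfl (mul_le_mul' le_rfl h1)).trans (le_of_eq ?_)
    ring
  exact (ENNReal.mul_le_mul_iff_right (by norm_num) (by norm_num)).1 h2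

end Pool.Agent.Lib.MP_2d002d_gt.H29
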