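import Mathlib
import Pool.Agent.Lib.MP_2d002d_gt.H29.SB

set_option autoImplicit false

/-!
Joint logarithmic concavity of the Gaussian-weighted volume: the midpoint theorem.
-/

open MeasureTheory Set Filter
open scoped ENNReal NNReal Pointwise

namespace Pool.Agent.Lib.MP_2d002d_gt.H29

variable {ι : Type*} [Fintype ι]

/-- Bounded open symmetric convex nonempty sets. -/
structure Body (K : Set (ι → ℝ)) : Prop where
  isOpen : IsOpen K
  bdd : Bornology.IsBounded K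
  convex : Convex ℝ K
  symm : ∀ x ∈ K, -x ∈ K
  nonempty : K.Nonempty

lemma Body.zero_mem {K : Set (ι → ℝ)} (hK : Body K) : (0 : ι → ℝ) ∈ K := by
  obtain ⟨x, hx⟩ := hK.nonempty
  have := hK.convex hx (hK.symm x hx) (show (0 : ℝ) ≤ 1 / 2 by norm_num)
    (show (0 : ℝ) ≤ 1 / 2 by norm_num) (by norm_num)
  simpa using this

lemma Body.smul_mem {K : Set (ι → ℝ)} (hK : Body K) {x : ι → ℝ} (hx : x ∈ K) {c : ℝ}
    (h0 : 0 ≤ c) (h1 : c ≤ 1) : c • x ∈ K :=
  hK.convex.smul_mem_of_zero_mem hK.zero_mem hx ⟨h0, h1⟩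

lemma Body.smul {K : Set (ι → ℝ)} (hK : Body K) {c : ℝ} (hc : 0 < c) : Body (c • K) where
  isOpen := hK.isOpen.smul₀ hc.ne'
  bdd := hK.bdd.smul₀ c
  convex := hK.convex.smul c
  symm := by
    rintro _ ⟨x, hx, rfl⟩
    exact ⟨-x, hK.symm x hx, by simp⟩
  nonempty := hK.nonempty.smul_set

lemma Body.add {K L : Set (ι → ℝ)} (hK : Body K) (hL : Body L) : Body (K + L) where
  isOpen := hK.isOpen.add_right
  bdd := hK.bdd.add hL.bdd
  convex := hK.convex.add hL.convex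
  symm := by
    rintro _ ⟨x, hx, y, hy, rfl⟩
    exact ⟨-x, hK.symm x hx, -y, hL.symm y hy, by simp; abel⟩
  nonempty := hK.nonempty.add hL.nonempty

/-- The Minkowski path from `K₀` (at `r = -1`) to `K₁` (at `r = 1`). -/
def pathK (K₀ K₁ : Set (ι → ℝ)) (r : ℝ) : Set (ι → ℝ) :=
  ((1 - r) / 2) • K₀ + ((1 + r) / 2) • K₁

lemma pathK_neg_one {K₀ K₁ : Set (ι → ℝ)} (h : K₁.Nonempty) : pathK K₀ K₁ (-1) = K₀ := by
  unfold pathK
  have e1 : ((1 : ℝ) - -1) / 2 = 1 := by norm_num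
  have e2 : ((1 : ℝ) + -1) / 2 = 0 := by norm_num
  rw [e1, e2, one_smul, zero_smul_set h, add_zero]

lemma pathK_one {K₀ K₁ : Set (ι → ℝ)} (h : K₀.Nonempty) : pathK K₀ K₁ 1 = K₁ := by
  unfold pathK
  have e1 : ((1 : ℝ) - 1) / 2 = 0 := by norm_num
  have e2 : ((1 : ℝ) + 1) / 2 = 1 := by norm_num
  rw [e1, e2, one_smul, zero_smul_set h, zero_add]

lemma pathK_zero (K₀ K₁ : Set (ι → ℝ)) : pathK K₀ K₁ 0 = (1 / 2 : ℝ) • (K₀ + K₁) := by
  unfold pathK
  rw [smul_add]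
  norm_num

lemma Body.path {K₀ K₁ : Set (ι → ℝ)} (h₀ : Body K₀) (h₁ : Body K₁) {r : ℝ} (hr : |r| ≤ 1) :
    Body (pathK K₀ K₁ r) := by
  have hr' := abs_le.1 hr
  rcases eq_or_lt_of_le hr'.1 with h | h
  · rw [← h, pathK_neg_one h₁.nonempty]; exact h₀
  rcases eq_or_lt_of_le hr'.2 with h' | h'
  · rw [h', pathK_one h₀.nonempty]; exact h₁
  exact (h₀.smul (by linarith)).add (h₁.smul (by linarith))

lemma pathK_mid {K₀ K₁ : Set (ι → ℝ)} (h₀ : Convex ℝ K₀) (h₁ : Convex ℝ K₁) {r h : ℝ}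
    (hh : 0 ≤ h) (hr : |r| + h ≤ 1) :
    ∀ x ∈ pathK K₀ K₁ (r + h), ∀ y ∈ pathK K₀ K₁ (r - h), (1 / 2 : ℝ) • (x + y) ∈
      pathK K₀ K₁ r := by
  have hr1 := neg_abs_le r
  have hr2 := le_abs_self r
  rintro _ ⟨_, ⟨a, ha, rfl⟩, _, ⟨b, hb, rfl⟩, rfl⟩ _ ⟨_, ⟨a', ha', rfl⟩, _, ⟨b', hb', rfl⟩, rfl⟩
  have e1 : ((1 - r) / 2 : ℝ) • K₀ = ((1 - (r + h)) / 4) • K₀ + ((1 - (r - h)) / 4) • K₀ := by
    rw [← h₀.add_smul (by linarith) (by linarith)]
    congr 1; ring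
  have e2 : ((1 + r) / 2 : ℝ) • K₁ = ((1 + (r + h)) / 4) • K₁ + ((1 + (r - h)) / 4) • K₁ := by
    rw [← h₁.add_smul (by linarith) (by linarith)]
    congr 1; ring
  unfold pathK
  rw [e1, e2]
  refine ⟨((1 - (r + h)) / 4) • a + ((1 - (r - h)) / 4) • a',
    ⟨_, ⟨a, ha, rfl⟩, _, ⟨a', ha', rfl⟩, rfl⟩,
    ((1 + (r + h)) / 4) • b + ((1 + (r - h)) / 4) • b',
    ⟨_, ⟨b, hb, rfl⟩, _, ⟨b', hb', rfl⟩, rfl⟩, ?_⟩
  simp only [smul_add, smul_smul]
  ext i
  simp only [Pi.add_apply, Pi.smul_apply, smul_eq_mul]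
  ring

lemma gw_le_one {s : ι → ℝ} (hs : ∀ i, 0 ≤ s i) (x : ι → ℝ) : gw s x ≤ 1 := by
  unfold gw
  rw [← ENNReal.ofReal_one]
  refine ENNReal.ofReal_le_ofReal ?_
  rw [Real.exp_le_one_iff, neg_nonpos]
  exact Finset.sum_nonneg (fun i _ => mul_nonneg (hs i) (sq_nonneg _))

lemma gw_pos (s x : ι → ℝ) : 0 < gw s x := ENNReal.ofReal_pos.2 (Real.exp_pos _)

lemma gw_anti {s s' : ι → ℝ} (h : ∀ i, s i ≤ s' i) (x : ι → ℝ) : gw s' x ≤ gw s x := by
  unfold gw
  refine ENNReal.ofReal_le_ofReal (Real.exp_le_exp.2 (neg_le_neg ?_))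
  exact Finset.sum_le_sum (fun i _ => mul_le_mul_of_nonneg_right (h i) (sq_nonneg _))

lemma G_anti {s s' : ι → ℝ} (h : ∀ i, s i ≤ s' i) (K : Set (ι → ℝ)) : G K s' ≤ G K s :=
  lintegral_mono (fun x => gw_anti h x)

lemma Body.G_ne_top {K : Set (ι → ℝ)} (hK : Body K) {s : ι → ℝ} (hs : ∀ i, 0 ≤ s i) :
    G K s ≠ ∞ := by
  have h : G K s ≤ volume K := by
    unfold G
    calc ∫⁻ x in K, gw s x ≤ ∫⁻ x in K, 1 := lintegral_mono (fun x => gw_le_one hs x)
      _ = volume K := by simp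
  exact ne_top_of_le_ne_top hK.bdd.measure_lt_top.ne h

lemma Body.G_ne_zero {K : Set (ι → ℝ)} (hK : Body K) (s : ι → ℝ) : G K s ≠ 0 := by
  unfold G
  rw [← pos_iff_ne_zero, lintegral_pos_iff_support (measurable_gw s)]
  have : Function.support (gw s) = univ := by
    ext x; simp [(gw_pos s x).ne']
  rw [this, Measure.restrict_apply_univ]
  exact hK.isOpen.measure_pos _ hK.nonempty

/-- The logarithmic form of the quantitative step. -/
lemma log_step {a b c : ℝ≥0∞} {e : ℝ} (ha : a ≠ 0) (ha' : a ≠ ∞) (hb : b ≠ 0) (hb' : b ≠ ∞)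
    (hc : c ≠ 0) (hc' : c ≠ ∞) (he : 0 ≤ e)
    (h : a * b ≤ (1 + ENNReal.ofReal e) * (c * c)) :
    Real.log a.toReal + Real.log b.toReal ≤ 2 * Real.log c.toReal + e := by
  have ha1 : 0 < a.toReal := ENNReal.toReal_pos ha ha'
  have hb1 : 0 < b.toReal := ENNReal.toReal_pos hb hb'
  have hc1 : 0 < c.toReal := ENNReal.toReal_pos hc hc'
  have h1 : a.toReal * b.toReal ≤ (1 + e) * (c.toReal * c.toReal) := by
    have := ENNReal.toReal_mono (ENNReal.mul_ne_top (by simp) (ENNReal.mul_ne_top hc' hc')) h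
    rwa [ENNReal.toReal_mul, ENNReal.toReal_mul, ENNReal.toReal_mul,
      ENNReal.toReal_add (by simp) (by simp), ENNReal.toReal_ofReal he, ENNReal.toReal_one] at this
  have h2 := Real.log_le_log (mul_pos ha1 hb1) h1
  rw [Real.log_mul ha1.ne' hb1.ne', Real.log_mul (by positivity) (by positivity),
    Real.log_mul hc1.ne' hc1.ne'] at h2
  have h3 : Real.log (1 + e) ≤ e := by
    have := Real.log_le_sub_one_of_pos (show 0 < 1 + e by linarith)
    linarith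
  linarith

/-- **Joint log-concavity** of the Gaussian-weighted volume in the body and the logarithms of the
inverse variances, midpoint form. -/
theorem LC {K₀ K₁ : Set (ι → ℝ)} (h₀ : Body K₀) (h₁ : Body K₁) {s₀ s₁ : ι → ℝ}
    (hs₀ : ∀ i, 0 ≤ s₀ i) (hs₁ : ∀ i, 0 ≤ s₁ i) :
    G K₀ s₀ * G K₁ s₁ ≤ G ((1 / 2 : ℝ) • (K₀ + K₁)) (fun i => Real.sqrt (s₀ i * s₁ i)) ^ 2 := by
  classical
  set m : ι → ℝ := fun i => Real.sqrt (s₀ i * s₁ i) with hm
  set θ : ι → ℝ := fun i => if s₀ i * s₁ i = 0 then 0 else Real.log (s₁ i / s₀ i) / 2 with hθ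
  have hm0 : ∀ i, 0 ≤ m i := fun i => Real.sqrt_nonneg _
  -- comparison at the endpoints
  have cmp0 : ∀ i, m i * Real.exp (-θ i) ≤ s₀ i := by
    intro i
    by_cases h : s₀ i * s₁ i = 0
    · simp only [hm, hθ, h, Real.sqrt_zero, zero_mul]; exact hs₀ i
    · have hp0 : 0 < s₀ i := lt_of_le_of_ne (hs₀ i) (fun e => h (by rw [← e, zero_mul]))
      have hp1 : 0 < s₁ i := lt_of_le_of_ne (hs₁ i) (fun e => h (by rw [← e, mul_zero]))
      refine le_of_eq ?_
      have h2 : (m i * Real.exp (-θ i)) ^ 2 = s₀ i ^ 2 := by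
        rw [mul_pow, ← Real.exp_nat_mul]
        have e1 : ((2 : ℕ) : ℝ) * -θ i = -Real.log (s₁ i / s₀ i) := by
          simp only [hθ, if_neg h]; push_cast; ring
        rw [e1, Real.exp_neg, Real.exp_log (div_pos hp1 hp0)]
        simp only [hm]
        rw [Real.sq_sqrt (mul_pos hp0 hp1).le]
        field_simp
      exact (pow_left_inj₀ (mul_nonneg (hm0 i) (Real.exp_pos _).le) (hs₀ i) two_ne_zero).1 h2
  have cmp1 : ∀ i, m i * Real.exp (θ i) ≤ s₁ i := by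
    intro i
    by_cases h : s₀ i * s₁ i = 0
    · simp only [hm, hθ, h, Real.sqrt_zero, zero_mul]; exact hs₁ i
    · have hp0 : 0 < s₀ i := lt_of_le_of_ne (hs₀ i) (fun e => h (by rw [← e, zero_mul]))
      have hp1 : 0 < s₁ i := lt_of_le_of_ne (hs₁ i) (fun e => h (by rw [← e, mul_zero]))
      refine le_of_eq ?_
      have h2 : (m i * Real.exp (θ i)) ^ 2 = s₁ i ^ 2 := by
        rw [mul_pow, ← Real.exp_nat_mul]
        have e1 : ((2 : ℕ) : ℝ) * θ i = Real.log (s₁ i / s₀ i) := by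
          simp only [hθ, if_neg h]; push_cast; ring
        rw [e1, Real.exp_log (div_pos hp1 hp0)]
        simp only [hm]
        rw [Real.sq_sqrt (mul_pos hp0 hp1).le]
        field_simp
      exact (pow_left_inj₀ (mul_nonneg (hm0 i) (Real.exp_pos _).le) (hs₁ i) two_ne_zero).1 h2
  -- the path
  set S : ℝ → ι → ℝ := fun r i => m i * Real.exp (r * θ i) with hS
  have hS0 : ∀ r i, 0 ≤ S r i := fun r i => mul_nonneg (hm0 i) (Real.exp_pos _).le
  set Λ : ℝ := 1 + ∑ i, θ i ^ 2 with hΛ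
  have hΛ1 : 1 ≤ Λ := by
    have : 0 ≤ ∑ i, θ i ^ 2 := Finset.sum_nonneg (fun i _ => sq_nonneg _)
    linarith
  have hθΛ : ∀ i, θ i ^ 2 ≤ Λ := by
    intro i
    have : θ i ^ 2 ≤ ∑ i, θ i ^ 2 :=
      Finset.single_le_sum (f := fun i => θ i ^ 2) (fun i _ => sq_nonneg _) (Finset.mem_univ i)
    linarith
  set f : ℝ → ℝ := fun r => Real.log (G (pathK K₀ K₁ r) (S r)).toReal with hf
  have step : ∀ r h : ℝ, 0 ≤ h → h ≤ 1 / (2 * Λ) → |r| + h ≤ 1 →
      f (r - h) + f (r + h) ≤ 2 * f r + (32 * Λ ^ 2 * 2 ^ Fintype.card ι) * h ^ 4 := by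
    intro r h hh0 hh1 hrh
    have hrm : |r - h| ≤ 1 := by
      have := abs_sub r h
      rw [abs_of_nonneg hh0] at this
      linarith
    have hrp : |r + h| ≤ 1 := by
      have := abs_add_le r h
      rw [abs_of_nonneg hh0] at this
      linarith
    have hrr : |r| ≤ 1 := by linarith
    have B0 := h₀.path h₁ hrr
    have Bm := h₀.path h₁ hrm
    have Bp := h₀.path h₁ hrp
    set δ : ℝ := h ^ 2 * Λ with hδ
    have hδ0 : 0 ≤ δ := by positivity
    have hΛpos : 0 < Λ := by linarith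
    have hhΛ : h * (2 * Λ) ≤ 1 := by
      rwa [le_div_iff₀ (by positivity)] at hh1
    have hδ1 : δ ≤ 1 / 4 := by
      have h5 : (h * (2 * Λ)) ^ 2 ≤ 1 := by
        have : 0 ≤ h * (2 * Λ) := by positivity
        nlinarith
      have h6 : δ * Λ * 4 = (h * (2 * Λ)) ^ 2 := by rw [hδ]; ring
      nlinarith
    have hη : ∀ i, (Real.cosh (h * θ i) - 1 / Real.cosh (h * θ i)) / 2 ≤ δ := by
      intro i
      have h7 : (h * θ i) ^ 2 ≤ δ := by
        rw [mul_pow, hδ]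
        exact mul_le_mul_of_nonneg_left (hθΛ i) (sq_nonneg h)
      exact (beta_bound (by linarith)).trans h7
    have hd := doubling Bp.isOpen.measurableSet Bm.isOpen.measurableSet B0.isOpen.measurableSet
      (pathK_mid h₀.convex h₁.convex hh0 hrh) (hS0 r) (fun i => h * θ i)
    have hb := double_bound B0.isOpen.measurableSet B0.symm (fun x hx => by
        have h2 : (0 : ℝ) < Real.sqrt 2 := Real.sqrt_pos.2 (by norm_num)
        have h3 : 1 ≤ Real.sqrt 2 := by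
          rw [Real.one_le_sqrt]; norm_num
        have := B0.smul_mem hx (c := (Real.sqrt 2)⁻¹) (by positivity) (inv_le_one_of_one_le₀ h3)
        rwa [smul_smul, inv_mul_cancel₀ h2.ne', one_smul] at this)
      (hS0 r) hδ0 hδ1 hη
    have hcomb := hd.trans hb
    have e1 : (fun i => S r i * Real.exp (h * θ i)) = S (r + h) := by
      funext i
      simp only [hS]
      rw [mul_assoc, ← Real.exp_add]
      congr 2; ring
    have e2 : (fun i => S r i * Real.exp (-(h * θ i))) = S (r - h) := by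
      funext i
      simp only [hS]
      rw [mul_assoc, ← Real.exp_add]
      congr 2; ring
    rw [e1, e2] at hcomb
    have hlog := log_step (Bp.G_ne_zero _) (Bp.G_ne_top (hS0 _)) (Bm.G_ne_zero _)
      (Bm.G_ne_top (hS0 _)) (B0.G_ne_zero _) (B0.G_ne_top (hS0 _)) (by positivity) hcomb
    have e3 : 32 * δ ^ 2 * 2 ^ Fintype.card ι =
        (32 * Λ ^ 2 * 2 ^ Fintype.card ι) * h ^ 4 := by rw [hδ]; ring
    rw [e3] at hlog
    simp only [hf]
    linarith
  have hfin := midpoint_of_fourpoint (f := f) (h₀ := 1 / (2 * Λ)) (by positivity) step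
  simp only [hf] at hfin
  rw [pathK_neg_one h₁.nonempty, pathK_one h₀.nonempty, pathK_zero] at hfin
  have Bmid : Body ((1 / 2 : ℝ) • (K₀ + K₁)) := (h₀.add h₁).smul (by norm_num)
  have eS0 : S 0 = m := by funext i; simp [hS]
  rw [eS0] at hfin
  have a0 : G K₀ s₀ ≤ G K₀ (S (-1)) := G_anti (fun i => by
    have := cmp0 i
    simpa only [hS, neg_one_mul] using this) K₀
  have a1 : G K₁ s₁ ≤ G K₁ (S 1) := G_anti (fun i => by
    have := cmp1 i
    simpa only [hS, one_mul] using this) K₁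
  refine (mul_le_mul' a0 a1).trans ?_
  have n0 := h₀.G_ne_zero (S (-1))
  have n0' := h₀.G_ne_top (hS0 (-1))
  have n1 := h₁.G_ne_zero (S 1)
  have n1' := h₁.G_ne_top (hS0 1)
  have nm := Bmid.G_ne_zero m
  have nm' := Bmid.G_ne_top hm0
  have p0 := ENNReal.toReal_pos n0 n0'
  have p1 := ENNReal.toReal_pos n1 n1'
  have pm := ENNReal.toReal_pos nm nm'
  rw [← Real.log_mul p0.ne' p1.ne'] at hfin
  have e4 : 2 * Real.log (G ((1 / 2 : ℝ) • (K₀ + K₁)) m).toReal =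
      Real.log ((G ((1 / 2 : ℝ) • (K₀ + K₁)) m).toReal ^ 2) := by
    rw [Real.log_pow]; norm_num
  rw [e4] at hfin
  have h8 := (Real.log_le_log_iff (mul_pos p0 p1) (by positivity)).1 hfin
  rw [← ENNReal.toReal_mul, ← ENNReal.toReal_pow] at h8
  exact (ENNReal.toReal_le_toReal (ENNReal.mul_ne_top n0' n1') (ENNReal.pow_ne_top nm')).1 h8

end Pool.Agent.Lib.MP_2d002d_gt.H29
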