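import Mathlib

set_option autoImplicit false

/-!
Inequalities between means.
-/

namespace Pool.Agent.Lib.MP_2d002d_gt.H29

/-- the key polynomial inequality -/
lemma poly_key {y z d : ℝ} (hy : 1 ≤ y) (hz : 1 ≤ z) (hd : 0 ≤ d) :
    (1 + d) * ((y ^ 2 - 1) * (z ^ 2 - 1)) ≤
      ((y * z - 1) + d * (y * z * (z - 1))) ^ 2 := by
  set P : ℝ := y * z * (z - 1) with hP
  set R : ℝ := (z - 1) * (-((y ^ 2 - 1) * (z + 1)) + 2 * (y * z) * (y * z - 1)) with hR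
  have hP0 : 0 ≤ P := by
    rw [hP]
    have : 0 ≤ z - 1 := by linarith
    positivity
  have hid : ((y * z - 1) + d * P) ^ 2 - (1 + d) * ((y ^ 2 - 1) * (z ^ 2 - 1)) =
      d ^ 2 * P ^ 2 + d * R + (y - z) ^ 2 := by
    rw [hP, hR]; ring
  have hRS : -(2 * P * |y - z|) ≤ R := by
    rcases le_total z y with h | h
    · rw [abs_of_nonneg (by linarith)]
      have e : R + 2 * P * (y - z) = (z - 1) * (z + 1) * (y - 1) * ((2 * z - 1) * y - 1) := by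
        rw [hP, hR]; ring
      have h1 : 0 ≤ (2 * z - 1) * y - 1 := by nlinarith
      have h2 : 0 ≤ (z - 1) * (z + 1) * (y - 1) * ((2 * z - 1) * y - 1) :=
        mul_nonneg (mul_nonneg (mul_nonneg (by linarith) (by linarith)) (by linarith)) h1
      linarith
    · rw [abs_of_nonpos (by linarith)]
      obtain ⟨s, hs⟩ : ∃ s, s = y - 1 := ⟨_, rfl⟩
      obtain ⟨w, hw⟩ : ∃ w, w = z - 1 := ⟨_, rfl⟩
      have hs0 : 0 ≤ s := by linarith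
      have hsw : s ≤ w := by linarith
      have hw0 : 0 ≤ w := by linarith
      have ey : y = 1 + s := by linarith
      have ez : z = 1 + w := by linarith
      have e : R + 2 * P * (-(y - z)) = w * (4 * (w - s) + (4 * w ^ 2 - 2 * s ^ 2) + 4 * s * w +
          6 * s * w ^ 2 + s ^ 2 * w + 2 * s ^ 2 * w ^ 2) := by
        rw [hP, hR, ey, ez]; ring
      have h1 : 0 ≤ 4 * w ^ 2 - 2 * s ^ 2 := by nlinarith
      have h2 : 0 ≤ w * (4 * (w - s) + (4 * w ^ 2 - 2 * s ^ 2) + 4 * s * w +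
          6 * s * w ^ 2 + s ^ 2 * w + 2 * s ^ 2 * w ^ 2) := by
        refine mul_nonneg hw0 ?_
        have : 0 ≤ w - s := by linarith
        positivity
      linarith
  have h3 : 0 ≤ (d * P - |y - z|) ^ 2 := sq_nonneg _
  have h4 : (y - z) ^ 2 = |y - z| ^ 2 := (sq_abs _).symm
  have h5 : d * (-(2 * P * |y - z|)) ≤ d * R := mul_le_mul_of_nonneg_left hRS hd
  nlinarith

/-- `1 + c X ≤ (c + 1) y z^c` when `X, y, z` are `cosh q, cosh (q - p), cosh p`. -/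
lemma mean_key {X y z : ℝ} (hy : 1 ≤ y) (hz : 1 ≤ z)
    (hX : (X - y * z) ^ 2 = (y ^ 2 - 1) * (z ^ 2 - 1)) {c : ℕ} (hc : 1 ≤ c) :
    1 + c * X ≤ (c + 1) * (y * z ^ c) := by
  have hc' : (1 : ℝ) ≤ c := by exact_mod_cast hc
  have hyz : 1 ≤ y * z := by nlinarith
  obtain ⟨e, rfl⟩ : ∃ e, c = e + 1 := ⟨c - 1, by omega⟩
  have hb : 1 + (e : ℝ) * (z - 1) ≤ z ^ e := by
    have := one_add_mul_le_pow (a := z - 1) (by linarith) e
    simpa using this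
  have h1 : y * z * (1 + (e : ℝ) * (z - 1)) ≤ y * z ^ (e + 1) := by
    calc y * z * (1 + (e : ℝ) * (z - 1)) ≤ y * z * z ^ e :=
          mul_le_mul_of_nonneg_left hb (by linarith)
      _ = y * z ^ (e + 1) := by ring
  have hk := poly_key hy hz (d := ((e : ℝ) + 1) ^ 2 - 1) (by nlinarith [Nat.cast_nonneg (α := ℝ) e])
  set T : ℝ := (y * z - 1) + (((e : ℝ) + 1) ^ 2 - 1) * (y * z * (z - 1)) with hT
  have hT0 : 0 ≤ T := by
    rw [hT]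
    have a1 : 0 ≤ ((e : ℝ) + 1) ^ 2 - 1 := by nlinarith [Nat.cast_nonneg (α := ℝ) e]
    have a2 : 0 ≤ y * z * (z - 1) := mul_nonneg (by linarith) (by linarith)
    have := mul_nonneg a1 a2
    linarith
  have h2 : (((e : ℝ) + 1) * (X - y * z)) ^ 2 ≤ T ^ 2 := by
    rw [mul_pow, hX]
    refine le_trans (le_of_eq ?_) hk
    ring
  have h3 : ((e : ℝ) + 1) * (X - y * z) ≤ T := by
    exact (abs_le_of_sq_le_sq h2 hT0 |> (le_abs_self _).trans)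
  push_cast
  have h4 : ((e : ℝ) + 1 + 1) * (y * z * (1 + (e : ℝ) * (z - 1))) ≤
      ((e : ℝ) + 1 + 1) * (y * z ^ (e + 1)) :=
    mul_le_mul_of_nonneg_left h1 (by positivity)
  have h5 : ((e : ℝ) + 1 + 1) * (y * z * (1 + (e : ℝ) * (z - 1))) =
      1 + ((e : ℝ) + 1) * (y * z) + T := by
    rw [hT]; ring
  linarith

/-- The inequality between the walls: `j ≥ 2` pairs. -/
lemma wall_key {a b ℓ₀ ℓ₁ : ℝ} (ha : 0 < a) (hb : 0 < b) (h0 : 0 < ℓ₀) (h1 : 0 < ℓ₁) {c : ℕ}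
    (hc : 1 ≤ c) :
    (Real.sqrt (a * b) + c * ((a + b) / 2)) / (c + 1) ≤
      ((ℓ₀ + ℓ₁) / 2 / Real.sqrt (ℓ₀ * ℓ₁)) ^ (c - 1) *
        ((ℓ₀ + ℓ₁) / 2 * ((a / ℓ₀ + b / ℓ₁) / 2)) := by
  have hc' : (1 : ℝ) ≤ c := by exact_mod_cast hc
  set G : ℝ := Real.sqrt (a * b) with hG
  set g : ℝ := Real.sqrt (ℓ₀ * ℓ₁) with hg
  have hG0 : 0 < G := Real.sqrt_pos.2 (mul_pos ha hb)
  have hg0 : 0 < g := Real.sqrt_pos.2 (mul_pos h0 h1)
  have hG2 : G ^ 2 = a * b := Real.sq_sqrt (mul_pos ha hb).le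
  have hg2 : g ^ 2 = ℓ₀ * ℓ₁ := Real.sq_sqrt (mul_pos h0 h1).le
  set z : ℝ := (ℓ₀ + ℓ₁) / 2 / g with hz
  set y : ℝ := (a / ℓ₀ + b / ℓ₁) / 2 * g / G with hy
  have hz1 : 1 ≤ z := by
    rw [hz, le_div_iff₀ hg0, one_mul]
    refine (pow_le_pow_iff_left₀ hg0.le (by positivity) two_ne_zero).1 ?_
    rw [hg2]; nlinarith [sq_nonneg (ℓ₀ - ℓ₁)]
  have hy1 : 1 ≤ y := by
    rw [hy, le_div_iff₀ hG0, one_mul]
    refine (pow_le_pow_iff_left₀ hG0.le (by positivity) two_ne_zero).1 ?_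
    rw [mul_pow, hG2, hg2]
    have : ((a / ℓ₀ + b / ℓ₁) / 2) ^ 2 * (ℓ₀ * ℓ₁) - a * b =
        ((a / ℓ₀ - b / ℓ₁) / 2) ^ 2 * (ℓ₀ * ℓ₁) := by
      field_simp; ring
    have h2 : 0 ≤ ((a / ℓ₀ - b / ℓ₁) / 2) ^ 2 * (ℓ₀ * ℓ₁) := by positivity
    linarith
  have hX : ((a + b) / 2 / G - y * z) ^ 2 = (y ^ 2 - 1) * (z ^ 2 - 1) := by
    have e1 : y * z = (a / ℓ₀ + b / ℓ₁) * (ℓ₀ + ℓ₁) / 4 / G := by
      rw [hy, hz]; field_simp; ring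
    have e2 : y ^ 2 = ((a / ℓ₀ + b / ℓ₁) / 2) ^ 2 * (ℓ₀ * ℓ₁) / (a * b) := by
      rw [hy, div_pow, mul_pow, hG2, hg2]
    have e3 : z ^ 2 = ((ℓ₀ + ℓ₁) / 2) ^ 2 / (ℓ₀ * ℓ₁) := by
      rw [hz, div_pow, hg2]
    rw [e1, e2, e3, ← sub_div, div_pow, hG2]
    field_simp
    ring
  have hk := mean_key hy1 hz1 hX hc
  obtain ⟨e, rfl⟩ : ∃ e, c = e + 1 := ⟨c - 1, by omega⟩
  rw [div_le_iff₀ (by positivity)]
  have h3 : G * (1 + ((e + 1 : ℕ) : ℝ) * ((a + b) / 2 / G)) ≤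
      G * ((((e + 1 : ℕ) : ℝ) + 1) * (y * z ^ (e + 1))) := mul_le_mul_of_nonneg_left hk hG0.le
  have e4 : G * (1 + ((e + 1 : ℕ) : ℝ) * ((a + b) / 2 / G)) =
      G + ((e + 1 : ℕ) : ℝ) * ((a + b) / 2) := by
    field_simp
  have e5 : G * ((((e + 1 : ℕ) : ℝ) + 1) * (y * z ^ (e + 1))) =
      z ^ (e + 1 - 1) * ((ℓ₀ + ℓ₁) / 2 * ((a / ℓ₀ + b / ℓ₁) / 2)) * (((e + 1 : ℕ) : ℝ) + 1) := by
    have : G * y * z = (ℓ₀ + ℓ₁) / 2 * ((a / ℓ₀ + b / ℓ₁) / 2) := by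
      rw [hy, hz]; field_simp
    rw [← this]
    simp only [Nat.add_sub_cancel]
    ring
  rw [e4, e5] at h3
  exact h3

end Pool.Agent.Lib.MP_2d002d_gt.H29
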