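import Mathlib
import Pool.Agent.Lib.MP_2d002d_gt.H29.LC
import Pool.Agent.Lib.MP_2d002d_gt.H29.Means
import Pool.Agent.Lib.MP_2d002d_gt.LB.Interfaces

set_option autoImplicit false

/-!
Averaging the walls, and the fibre inequality for the layer cake.
-/

open MeasureTheory Set Filter
open scoped ENNReal NNReal Pointwise

namespace Pool.Agent.Lib.MP_2d002d_gt.H29

open Pool.Agent.Lib.MP_2c1b2b_gt.H32 Pool.Agent.Lib.MP_2d002d_gt.LB

variable {ι : Type} [Fintype ι]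

/-- Multiplicative Brunn-Minkowski. -/
lemma bm_mult {A B C : Set (ι → ℝ)} (hA : MeasurableSet A) (hB : MeasurableSet B)
    (hC : MeasurableSet C) {s : ℝ} (hs0 : 0 < s) (hs1 : s < 1)
    (h : ∀ x ∈ A, ∀ y ∈ B, (1 - s) • x + s • y ∈ C) :
    volume A ^ (1 - s) * volume B ^ s ≤ volume C := by
  have := pl_pi ι s hs0 hs1 (A.indicator 1) (B.indicator 1) (C.indicator 1)
    (measurable_one.indicator hA) (measurable_one.indicator hB) (measurable_one.indicator hC) ?_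
  · simpa [lintegral_indicator, hA, hB, hC] using this
  · intro x y
    by_cases hx : x ∈ A
    · by_cases hy : y ∈ B
      · rw [indicator_of_mem hx, indicator_of_mem hy, indicator_of_mem (h x hx y hy)]
        simp
      · rw [indicator_of_notMem hy, ENNReal.zero_rpow_of_pos hs0, mul_zero]; exact bot_le
    · rw [indicator_of_notMem hx, ENNReal.zero_rpow_of_pos (by linarith), zero_mul]; exact bot_le

lemma isOpen_boxι (a : ι → ℝ) : IsOpen (boxι a) := by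
  have : boxι a = ⋂ i, {x : ι → ℝ | |x i| < a i} := by
    ext x; simp [boxι]
  rw [this]
  exact isOpen_iInter_of_finite (fun i => isOpen_lt (by fun_prop) continuous_const)

/-- walls which are good for the pair `(K₀, a)`, `(K₁, b)` -/
def goodWalls (K₀ K₁ : Set (ι → ℝ)) (a b : ι → ℝ) : Set (ι → ℝ) :=
  {m | volume (K₀ ∩ boxι a) * volume (K₁ ∩ boxι b) ≤
    volume ((1 / 2 : ℝ) • (K₀ + K₁) ∩ boxι m) ^ 2}

lemma convex_goodWalls {K₀ K₁ : Set (ι → ℝ)} (h₀ : IsOpen K₀) (c₀ : Convex ℝ K₀)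
    (c₁ : Convex ℝ K₁) (a b : ι → ℝ) :
    Convex ℝ (goodWalls K₀ K₁ a b) := by
  intro m hm m' hm' s t hs ht hst
  rcases eq_or_lt_of_le hs with h | hs0
  · have : t = 1 := by linarith
    rw [← h, this, zero_smul, one_smul, zero_add]; exact hm'
  rcases eq_or_lt_of_le ht with h | ht0
  · have : s = 1 := by linarith
    rw [← h, this, zero_smul, one_smul, add_zero]; exact hm
  have hs' : s = 1 - t := by linarith
  have ht1 : t < 1 := by linarith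
  subst hs'
  have hKo : IsOpen ((1 / 2 : ℝ) • (K₀ + K₁)) := (h₀.add_right).smul₀ (by norm_num)
  have hKc : Convex ℝ ((1 / 2 : ℝ) • (K₀ + K₁)) := (c₀.add c₁).smul _
  have key := bm_mult (ι := ι) (hKo.inter (isOpen_boxι m)).measurableSet
    (hKo.inter (isOpen_boxι m')).measurableSet
    (hKo.inter (isOpen_boxι ((1 - t) • m + t • m'))).measurableSet ht0 ht1 (by
      rintro x ⟨hx, hx'⟩ y ⟨hy, hy'⟩
      refine ⟨hKc hx hy hs ht (by ring), fun i => ?_⟩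
      have h1 := hx' i
      have h2 := hy' i
      simp only [Pi.add_apply, Pi.smul_apply, smul_eq_mul]
      calc |(1 - t) * x i + t * y i| ≤ |(1 - t) * x i| + |t * y i| := abs_add_le _ _
        _ = (1 - t) * |x i| + t * |y i| := by
            rw [abs_mul, abs_mul, abs_of_pos hs0, abs_of_pos ht0]
        _ < (1 - t) * m i + t * m' i := by
            have := mul_lt_mul_of_pos_left h1 hs0
            have := mul_lt_mul_of_pos_left h2 ht0
            linarith)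
  simp only [goodWalls, mem_ofPred_eq] at hm hm' ⊢
  set P := volume (K₀ ∩ boxι a) * volume (K₁ ∩ boxι b)
  calc P = P ^ (1 - t) * P ^ t := by
        rw [← ENNReal.rpow_add_of_nonneg _ _ hs ht]; simp
    _ ≤ (volume ((1 / 2 : ℝ) • (K₀ + K₁) ∩ boxι m) ^ 2) ^ (1 - t) *
        (volume ((1 / 2 : ℝ) • (K₀ + K₁) ∩ boxι m') ^ 2) ^ t := by
        gcongr
    _ = (volume ((1 / 2 : ℝ) • (K₀ + K₁) ∩ boxι m) ^ (1 - t) *
        volume ((1 / 2 : ℝ) • (K₀ + K₁) ∩ boxι m') ^ t) ^ 2 := by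
        rw [mul_pow, ← ENNReal.rpow_natCast, ← ENNReal.rpow_natCast, ← ENNReal.rpow_natCast,
          ← ENNReal.rpow_natCast, ← ENNReal.rpow_mul, ← ENNReal.rpow_mul, ← ENNReal.rpow_mul,
          ← ENNReal.rpow_mul, mul_comm (((2 : ℕ) : ℝ)) (1 - t), mul_comm (((2 : ℕ) : ℝ)) t]
    _ ≤ _ := pow_le_pow_left' key 2

/-- the wall of a pair -/
noncomputable def pairWall [DecidableEq ι] (a b : ι → ℝ) (p : ι × ι) : ι → ℝ :=
  fun k => if k = p.1 ∨ k = p.2 then Real.sqrt (a k * b k) else (a k + b k) / 2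

lemma avg_mem [DecidableEq ι] (hGL : PairGL) {K₀ K₁ : Set (ι → ℝ)} (h₀ : Body K₀) (h₁ : Body K₁)
    {a b : ι → ℝ} (ha : ∀ i, 0 < a i) (hb : ∀ i, 0 < b i) (c : ℕ) (p : Fin (c + 1) → ι × ι)
    (hp : ∀ g, (p g).1 ≠ (p g).2) :
    (∑ g, (1 / ((c : ℝ) + 1)) • pairWall a b (p g)) ∈ goodWalls K₀ K₁ a b := by
  refine (convex_goodWalls h₀.isOpen h₀.convex h₁.convex a b).sum_mem
    (fun _ _ => by positivity) ?_ (fun g _ => ?_)
  · rw [Finset.sum_const, Finset.card_univ, Fintype.card_fin]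
    simp
    field_simp
  · exact hGL ι (p g).1 (p g).2 K₀ K₁ a b (hp g) h₀.isOpen h₁.isOpen h₀.convex h₁.convex
      h₀.symm h₁.symm ha hb

omit [Fintype ι] in
lemma avg_le [DecidableEq ι] {a b : ι → ℝ} (ha : ∀ i, 0 < a i) (hb : ∀ i, 0 < b i) (c : ℕ)
    (p : Fin (c + 1) → ι × ι) {i : ι} (hi : ∃ g, i = (p g).1 ∨ i = (p g).2) :
    (∑ g, (1 / ((c : ℝ) + 1)) • pairWall a b (p g)) i ≤
      (Real.sqrt (a i * b i) + c * ((a i + b i) / 2)) / (c + 1) := by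
  obtain ⟨g₀, hg₀⟩ := hi
  have hG : Real.sqrt (a i * b i) ≤ (a i + b i) / 2 := by
    rw [Real.sqrt_le_left (by have := ha i; have := hb i; linarith)]
    nlinarith [sq_nonneg (a i - b i)]
  have h1 : ∀ g, pairWall a b (p g) i ≤ (a i + b i) / 2 := by
    intro g
    unfold pairWall
    split_ifs
    · exact hG
    · exact le_rfl
  have h2 : pairWall a b (p g₀) i = Real.sqrt (a i * b i) := by
    unfold pairWall
    rw [if_pos hg₀]
  rw [Finset.sum_apply]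
  simp only [Pi.smul_apply, smul_eq_mul]
  rw [← Finset.mul_sum, ← Finset.add_sum_erase _ _ (Finset.mem_univ g₀), h2]
  have h3 : ∑ g ∈ Finset.univ.erase g₀, pairWall a b (p g) i ≤ c * ((a i + b i) / 2) := by
    calc _ ≤ ∑ g ∈ Finset.univ.erase g₀, (a i + b i) / 2 := Finset.sum_le_sum (fun g _ => h1 g)
      _ = c * ((a i + b i) / 2) := by
        rw [Finset.sum_const, Finset.card_erase_of_mem (Finset.mem_univ _), Finset.card_univ,
          Fintype.card_fin]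
        simp
  rw [one_div, inv_mul_eq_div]
  gcongr

/-- closed box versus open box -/
lemma closed_le_open (K : Set (ι → ℝ)) (a : ι → ℝ) :
    volume (K ∩ {x | ∀ i, |x i| ≤ a i}) ≤ volume (K ∩ boxι a) := by
  have h1 : K ∩ {x | ∀ i, |x i| ≤ a i} ⊆ (K ∩ boxι a) ∪
      ⋃ i, ({x : ι → ℝ | x i = a i} ∪ {x : ι → ℝ | x i = -a i}) := by
    rintro x ⟨hx, hx'⟩
    by_cases h : ∀ i, |x i| < a i
    · exact Or.inl ⟨hx, h⟩
    · push Not at h
      obtain ⟨i, hi⟩ := h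
      have h2 : |x i| = a i := le_antisymm (hx' i) hi
      right
      rw [mem_iUnion]
      refine ⟨i, ?_⟩
      rcases abs_choice (x i) with h3 | h3
      · left; rw [mem_ofPred_eq, ← h2, h3]
      · right; rw [mem_ofPred_eq, ← h2, h3, neg_neg]
  have h2 : volume (⋃ i, ({x : ι → ℝ | x i = a i} ∪ {x : ι → ℝ | x i = -a i})) = 0 := by
    refine measure_iUnion_null (fun i => measure_union_null ?_ ?_)
    · exact Measure.pi_hyperplane _ i _
    · exact Measure.pi_hyperplane _ i _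
  calc _ ≤ volume (K ∩ boxι a) + volume (⋃ i, ({x : ι → ℝ | x i = a i} ∪
        {x : ι → ℝ | x i = -a i})) := (measure_mono h1).trans (measure_union_le _ _)
    _ = _ := by rw [h2, add_zero]

/-- half width of the truncated layer -/
noncomputable def hw (L : Set ℝ) (ℓ R : ℝ) : ℝ := sSup {x : ℝ | |x| ≤ R ∧ x / ℓ ∈ L}

lemma le_hw {L : Set ℝ} (hs : ∀ x ∈ L, -x ∈ L) {ℓ R x : ℝ} (hx : |x| ≤ R) (hxL : x / ℓ ∈ L) :
    |x| ≤ hw L ℓ R := by
  have hb : BddAbove {x : ℝ | |x| ≤ R ∧ x / ℓ ∈ L} := ⟨R, fun y hy => (le_abs_self y).trans hy.1⟩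
  refine le_csSup hb ⟨by rwa [abs_abs], ?_⟩
  rcases abs_choice x with h | h
  · rw [h]; exact hxL
  · rw [h, neg_div]; exact hs _ hxL

lemma mem_of_lt_hw {L : Set ℝ} (hc : Convex ℝ L) (hs : ∀ x ∈ L, -x ∈ L) {ℓ R r : ℝ} (hℓ : 0 < ℓ)
    (hr0 : 0 ≤ r) (hr : r < hw L ℓ R) : r / ℓ ∈ L := by
  have hne : {x : ℝ | |x| ≤ R ∧ x / ℓ ∈ L}.Nonempty := by
    by_contra h
    rw [not_nonempty_iff_eq_empty] at h
    unfold hw at hr
    rw [h, Real.sSup_empty] at hr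
    linarith
  obtain ⟨x, ⟨-, hxL⟩, hrx⟩ := exists_lt_of_lt_csSup hne hr
  have h1 : r / ℓ ∈ segment ℝ (-(x / ℓ)) (x / ℓ) := by
    rw [segment_eq_Icc (by have : 0 < x / ℓ := div_pos (by linarith) hℓ; linarith)]
    constructor
    · have h2 : 0 ≤ r / ℓ := by positivity
      have h3 : 0 < x / ℓ := div_pos (by linarith) hℓ
      linarith
    · gcongr
  exact hc.segment_subset (hs _ hxL) hxL h1

/-- **Fibre inequality.** -/
theorem fiber [DecidableEq ι] (hGL : PairGL) {K₀ K₁ : Set (ι → ℝ)} (h₀ : Body K₀) (h₁ : Body K₁)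
    {ℓ₀ ℓ₁ : ℝ} (hℓ₀ : 0 < ℓ₀) (hℓ₁ : 0 < ℓ₁) {c : ℕ} (hc : 1 ≤ c) (p : Fin (c + 1) → ι × ι)
    (hp : ∀ g, (p g).1 ≠ (p g).2) {L₀ L₁ L : ι → Set ℝ}
    (hL : ∀ i, ∀ x ∈ L₀ i, ∀ y ∈ L₁ i, (x + y) / 2 ∈ L i)
    (s₀ : ∀ i, ∀ x ∈ L₀ i, -x ∈ L₀ i) (s₁ : ∀ i, ∀ x ∈ L₁ i, -x ∈ L₁ i)
    (s : ∀ i, ∀ x ∈ L i, -x ∈ L i) (c₀ : ∀ i, Convex ℝ (L₀ i)) (c₁ : ∀ i, Convex ℝ (L₁ i))
    (hW : ∀ i, (∃ g, i = (p g).1 ∨ i = (p g).2) ∨
      ((L₀ i).Nonempty → (L₁ i).Nonempty → L i = univ)) :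
    volume {x | x ∈ K₀ ∧ ∀ i, x i / ℓ₀ ∈ L₀ i} * volume {x | x ∈ K₁ ∧ ∀ i, x i / ℓ₁ ∈ L₁ i} ≤
      (ENNReal.ofReal (((((ℓ₀ + ℓ₁) / 2) / Real.sqrt (ℓ₀ * ℓ₁)) ^ (c - 1)) ^ Fintype.card ι) *
        volume {x | x ∈ (1 / 2 : ℝ) • (K₀ + K₁) ∧ ∀ i, x i / ((ℓ₀ + ℓ₁) / 2) ∈ L i}) ^ 2 := by
  set E₀ : Set (ι → ℝ) := {x | x ∈ K₀ ∧ ∀ i, x i / ℓ₀ ∈ L₀ i} with hE₀
  set E₁ : Set (ι → ℝ) := {x | x ∈ K₁ ∧ ∀ i, x i / ℓ₁ ∈ L₁ i} with hE₁
  set T : Set (ι → ℝ) := {x | x ∈ (1 / 2 : ℝ) • (K₀ + K₁) ∧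
    ∀ i, x i / ((ℓ₀ + ℓ₁) / 2) ∈ L i} with hT
  rcases eq_or_ne (volume E₀) 0 with hz₀ | hz₀
  · rw [hz₀, zero_mul]; exact bot_le
  rcases eq_or_ne (volume E₁) 0 with hz₁ | hz₁
  · rw [hz₁, mul_zero]; exact bot_le
  obtain ⟨R₀, hR₀⟩ := h₀.bdd.subset_closedBall 0
  obtain ⟨R₁, hR₁⟩ := h₁.bdd.subset_closedBall 0
  set a : ι → ℝ := fun i => hw (L₀ i) ℓ₀ R₀ with ha
  set b : ι → ℝ := fun i => hw (L₁ i) ℓ₁ R₁ with hb
  have hEa : ∀ x ∈ E₀, ∀ i, |x i| ≤ a i := by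
    intro x hx i
    refine le_hw (s₀ i) ?_ (hx.2 i)
    have := hR₀ hx.1
    rw [mem_closedBall_zero_iff] at this
    exact (norm_le_pi_norm x i).trans this
  have hEb : ∀ x ∈ E₁, ∀ i, |x i| ≤ b i := by
    intro x hx i
    refine le_hw (s₁ i) ?_ (hx.2 i)
    have := hR₁ hx.1
    rw [mem_closedBall_zero_iff] at this
    exact (norm_le_pi_norm x i).trans this
  have ha0 : ∀ i, 0 < a i := by
    intro i
    by_contra h
    push Not at h
    refine hz₀ (measure_mono_null ?_ (Measure.pi_hyperplane (fun _ => volume) i 0))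
    intro x hx
    have h1 := hEa x hx i
    have h2 : |x i| ≤ 0 := h1.trans h
    exact abs_nonpos_iff.1 h2
  have hb0 : ∀ i, 0 < b i := by
    intro i
    by_contra h
    push Not at h
    refine hz₁ (measure_mono_null ?_ (Measure.pi_hyperplane (fun _ => volume) i 0))
    intro x hx
    have h1 := hEb x hx i
    have h2 : |x i| ≤ 0 := h1.trans h
    exact abs_nonpos_iff.1 h2
  have hE₀ne : E₀.Nonempty := nonempty_of_measure_ne_zero hz₀
  have hE₁ne : E₁.Nonempty := nonempty_of_measure_ne_zero hz₁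
  have hs₀ : E₀ ⊆ K₀ ∩ {x | ∀ i, |x i| ≤ a i} := fun x hx => ⟨hx.1, hEa x hx⟩
  have hs₁ : E₁ ⊆ K₁ ∩ {x | ∀ i, |x i| ≤ b i} := fun x hx => ⟨hx.1, hEb x hx⟩
  have hv₀ : volume E₀ ≤ volume (K₀ ∩ boxι a) := (measure_mono hs₀).trans (closed_le_open K₀ a)
  have hv₁ : volume E₁ ≤ volume (K₁ ∩ boxι b) := (measure_mono hs₁).trans (closed_le_open K₁ b)
  have havg := avg_mem hGL h₀ h₁ ha0 hb0 c p hp
  simp only [goodWalls, mem_ofPred_eq] at havg
  refine (mul_le_mul' hv₀ hv₁).trans (havg.trans (pow_le_pow_left' ?_ 2))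
  -- scaling
  set lm : ℝ := (ℓ₀ + ℓ₁) / 2 with hlm
  have hlm0 : 0 < lm := by positivity
  set Θ : ℝ := (lm / Real.sqrt (ℓ₀ * ℓ₁)) ^ (c - 1) with hΘ
  have hsq : 0 < Real.sqrt (ℓ₀ * ℓ₁) := Real.sqrt_pos.2 (mul_pos hℓ₀ hℓ₁)
  have hΘ1 : 1 ≤ Θ := by
    refine one_le_pow₀ ?_
    rw [le_div_iff₀ hsq, one_mul]
    rw [Real.sqrt_le_left hlm0.le]
    rw [hlm]; nlinarith [sq_nonneg (ℓ₀ - ℓ₁)]
  have hΘ0 : 0 < Θ := by linarith
  have hsub : (1 / 2 : ℝ) • (K₀ + K₁) ∩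
      boxι (∑ g, (1 / ((c : ℝ) + 1)) • pairWall a b (p g)) ⊆ Θ • T := by
    rintro x ⟨hxK, hxb⟩
    refine ⟨Θ⁻¹ • x, ⟨?_, fun i => ?_⟩, by simp only [smul_smul, mul_inv_cancel₀ hΘ0.ne', one_smul]⟩
    · exact ((h₀.add h₁).smul (by norm_num)).smul_mem hxK (by positivity)
        (inv_le_one_of_one_le₀ hΘ1)
    · rcases hW i with hi | hi
      · have h1 := (hxb i).trans_le ((avg_le ha0 hb0 c p hi).trans
          (wall_key (ha0 i) (hb0 i) hℓ₀ hℓ₁ hc))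
        set m : ℝ := (a i / ℓ₀ + b i / ℓ₁) / 2 with hm
        have hm0 : 0 < m := by
          have := ha0 i; have := hb0 i
          positivity
        have h2 : |x i| < Θ * (lm * m) := h1
        have h3 : |(Θ⁻¹ • x) i / lm| < m := by
          rw [Pi.smul_apply, smul_eq_mul, abs_div, abs_mul, abs_of_pos hlm0,
            abs_of_pos (inv_pos.2 hΘ0), div_lt_iff₀ hlm0, inv_mul_lt_iff₀ hΘ0]
          linarith
        set w : ℝ := (Θ⁻¹ • x) i / lm with hw'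
        set κ : ℝ := |w| / m with hκ
        have hκ0 : 0 ≤ κ := by positivity
        have hκ1 : κ < 1 := (div_lt_one hm0).2 h3
        have m0 := mem_of_lt_hw (c₀ i) (s₀ i) hℓ₀ (mul_nonneg hκ0 (ha0 i).le)
          (show κ * a i < hw (L₀ i) ℓ₀ R₀ by
            have := mul_lt_mul_of_pos_right hκ1 (ha0 i); rwa [one_mul] at this)
        have m1 := mem_of_lt_hw (c₁ i) (s₁ i) hℓ₁ (mul_nonneg hκ0 (hb0 i).le)
          (show κ * b i < hw (L₁ i) ℓ₁ R₁ by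
            have := mul_lt_mul_of_pos_right hκ1 (hb0 i); rwa [one_mul] at this)
        have h4 := hL i _ m0 _ m1
        have h5 : (κ * a i / ℓ₀ + κ * b i / ℓ₁) / 2 = |w| := by
          have : (κ * a i / ℓ₀ + κ * b i / ℓ₁) / 2 = κ * m := by rw [hm]; ring
          rw [this, hκ, div_mul_cancel₀ _ hm0.ne']
        rw [h5] at h4
        rcases abs_choice w with h6 | h6
        · rw [h6] at h4; exact h4
        · rw [h6] at h4; have := s i _ h4; rwa [neg_neg] at this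
      · rw [hi ?_ ?_]
        · exact mem_univ _
        · obtain ⟨y, hy⟩ := hE₀ne
          exact ⟨_, hy.2 i⟩
        · obtain ⟨y, hy⟩ := hE₁ne
          exact ⟨_, hy.2 i⟩
  refine (measure_mono hsub).trans (le_of_eq ?_)
  rw [Measure.addHaar_smul, Module.finrank_fintype_fun_eq_card, abs_of_pos (by positivity)]

end Pool.Agent.Lib.MP_2d002d_gt.H29
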