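import Mathlib
import Pool.Agent.Lib.MP_2d002d_gt.H29.Walls

set_option autoImplicit false

/-!
Layer cake for products of even log-concave densities.
-/

open MeasureTheory Set Filter
open scoped ENNReal NNReal Pointwise

namespace Pool.Agent.Lib.MP_2d002d_gt.H29

open Pool.Agent.Lib.MP_2c1b2b_gt.H32 Pool.Agent.Lib.MP_2d002d_gt.LB

/-- the product formula for the Lebesgue integral -/
lemma lintegral_prod_fin (n : ℕ) (g : Fin n → ℝ → ℝ≥0∞) (hg : ∀ i, Measurable (g i)) :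
    ∫⁻ t : Fin n → ℝ, ∏ i, g i (t i) = ∏ i, ∫⁻ x, g i x := by
  induction n with
  | zero =>
    simp only [Finset.univ_eq_empty, Finset.prod_empty]
    rw [volume_pi, Measure.pi_of_empty _ 0, lintegral_dirac]
  | succ n ih =>
    have e := (volume_preserving_piFinSuccAbove (fun _ : Fin (n + 1) => ℝ) 0)
    have e' := e.symm
    rw [← e'.lintegral_comp_emb (MeasurableEquiv.measurableEmbedding _)]
    have h1 : ∀ a : ℝ × (Fin n → ℝ), ∏ i, g i
        ((MeasurableEquiv.piFinSuccAbove (fun _ : Fin (n + 1) => ℝ) 0).symm a i) =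
        g 0 a.1 * ∏ i : Fin n, g i.succ (a.2 i) := by
      intro a
      rw [Fin.prod_univ_succ]
      simp [MeasurableEquiv.piFinSuccAbove]
    simp_rw [h1]
    have hm : Measurable (fun y : Fin n → ℝ => ∏ i : Fin n, g i.succ (y i)) :=
      Finset.measurable_prod _ (fun i _ => (hg i.succ).comp (measurable_pi_apply i))
    rw [Measure.volume_eq_prod, lintegral_prod_mul (hg 0).aemeasurable hm.aemeasurable, ih _ (fun i => hg i.succ),
      Fin.prod_univ_succ]

/-- even log-concave nonnegative functions on the line -/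
structure ELC (f : ℝ → ℝ) : Prop where
  nonneg : ∀ x, 0 ≤ f x
  even : ∀ x, f (-x) = f x
  lc : ∀ x y t : ℝ, 0 ≤ t → t ≤ 1 → f x ^ t * f y ^ (1 - t) ≤ f (t * x + (1 - t) * y)

lemma ELC.convex_lt {f : ℝ → ℝ} (hf : ELC f) {r : ℝ} (hr : 0 ≤ r) : Convex ℝ {x | r < f x} := by
  rw [convex_iff_forall_pos]
  intro x hx y hy a b ha hb hab
  simp only [mem_ofPred_eq] at hx hy ⊢
  have hb' : b = 1 - a := by linarith
  subst hb'
  have h := hf.lc x y a ha.le (by linarith)
  simp only [smul_eq_mul]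
  refine lt_of_lt_of_le ?_ h
  have hx0 : 0 < f x := by linarith
  have hy0 : 0 < f y := by linarith
  rcases eq_or_lt_of_le hr with h0 | h0
  · rw [← h0]; positivity
  calc r = r ^ a * r ^ (1 - a) := by rw [← Real.rpow_add h0]; simp
    _ < f x ^ a * f y ^ (1 - a) := by
      refine mul_lt_mul'' ?_ ?_ (by positivity) (by positivity)
      · exact Real.rpow_lt_rpow hr hx ha
      · exact Real.rpow_lt_rpow hr hy hb

lemma ELC.measurable {f : ℝ → ℝ} (hf : ELC f) : Measurable f := by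
  refine measurable_of_Ioi (fun r => ?_)
  rcases lt_or_ge r 0 with h | h
  · have : f ⁻¹' Ioi r = univ := by
      ext x; simp only [mem_preimage, mem_Ioi, mem_univ, iff_true]
      exact h.trans_le (hf.nonneg x)
    rw [this]; exact MeasurableSet.univ
  · exact (hf.convex_lt h).ordConnected.measurableSet

lemma ELC.mul_le {f : ℝ → ℝ} (hf : ELC f) {θ : ℝ} (h0 : 0 ≤ θ) (h1 : θ ≤ 1) (x : ℝ) :
    f x ≤ f (θ * x) := by
  have h := hf.lc x (-x) ((1 + θ) / 2) (by linarith) (by linarith)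
  rw [hf.even] at h
  have e1 : (1 + θ) / 2 * x + (1 - (1 + θ) / 2) * -x = θ * x := by ring
  rw [e1] at h
  refine le_trans ?_ h
  rcases eq_or_lt_of_le (hf.nonneg x) with h2 | h2
  · rw [← h2]
    exact mul_nonneg (Real.rpow_nonneg le_rfl _) (Real.rpow_nonneg le_rfl _)
  · rw [← Real.rpow_add h2]; simp

lemma ELC.le_zero {f : ℝ → ℝ} (hf : ELC f) (x : ℝ) : f x ≤ f 0 := by
  simpa using hf.mul_le le_rfl zero_le_one x

lemma ELC.mid {f : ℝ → ℝ} (hf : ELC f) {x y t s : ℝ} (hx : Real.exp (-t) < f x)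
    (hy : Real.exp (-s) < f y) : Real.exp (-((t + s) / 2)) < f ((x + y) / 2) := by
  have h := hf.lc x y (1 / 2) (by norm_num) (by norm_num)
  have e1 : 1 / 2 * x + (1 - 1 / 2) * y = (x + y) / 2 := by ring
  rw [e1] at h
  refine lt_of_lt_of_le ?_ h
  have e2 : Real.exp (-((t + s) / 2)) = Real.exp (-t) ^ (1 / 2 : ℝ) *
      Real.exp (-s) ^ (1 - 1 / 2 : ℝ) := by
    rw [← Real.exp_mul, ← Real.exp_mul, ← Real.exp_add]; congr 1; ring
  rw [e2]
  exact mul_lt_mul'' (Real.rpow_lt_rpow (Real.exp_pos _).le hx (by norm_num))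
    (Real.rpow_lt_rpow (Real.exp_pos _).le hy (by norm_num)) (by positivity) (by positivity)

/-- the layers -/
def lay (f : ℝ → ℝ) (t : ℝ) : Set ℝ := {y | Real.exp (-t) < f y}

lemma layer_one {f : ℝ → ℝ} (hf : ∀ x, 0 ≤ f x) (y : ℝ) :
    ∫⁻ t, ENNReal.ofReal (Real.exp (-t)) * (lay f t).indicator 1 y = ENNReal.ofReal (f y) := by
  rcases eq_or_lt_of_le (hf y) with h | h
  · rw [← h, ENNReal.ofReal_zero]
    have : ∀ t, ENNReal.ofReal (Real.exp (-t)) * (lay f t).indicator 1 y = 0 := by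
      intro t
      rw [indicator_of_notMem, mul_zero]
      simp only [lay, mem_ofPred_eq, not_lt, ← h]
      positivity
    simp [this]
  · have h1 : ∀ t, ENNReal.ofReal (Real.exp (-t)) * (lay f t).indicator (1 : ℝ → ℝ≥0∞) y =
        (Ioi (-Real.log (f y))).indicator (fun t => ENNReal.ofReal (Real.exp (-t))) t := by
      intro t
      have h2 : y ∈ lay f t ↔ t ∈ Ioi (-Real.log (f y)) := by
        simp only [lay, mem_ofPred_eq, mem_Ioi]
        rw [← Real.lt_log_iff_exp_lt h]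
        constructor <;> intro _ <;> linarith
      by_cases h3 : y ∈ lay f t
      · rw [indicator_of_mem h3, indicator_of_mem (h2.1 h3)]; simp
      · rw [indicator_of_notMem h3, indicator_of_notMem (fun h4 => h3 (h2.2 h4)), mul_zero]
    simp_rw [h1]
    rw [lintegral_indicator measurableSet_Ioi,
      ← ofReal_integral_eq_lintegral_ofReal (integrableOn_exp_neg_Ioi _)
        (ae_of_all _ (fun t => (Real.exp_pos _).le)), integral_exp_neg_Ioi, neg_neg,
      Real.exp_log h]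


lemma le_sq_of_rpow_half {a b : ℝ≥0∞} (h : a ^ (1 / 2 : ℝ) ≤ b) : a ≤ b ^ 2 := by
  have h1 : (a ^ (1 / 2 : ℝ)) ^ 2 ≤ b ^ 2 := pow_le_pow_left' h 2
  rwa [← ENNReal.rpow_natCast, ← ENNReal.rpow_mul, show (1 / 2 : ℝ) * ((2 : ℕ) : ℝ) = 1 by norm_num,
    ENNReal.rpow_one] at h1

lemma rpow_half_le_of_sq {a b : ℝ≥0∞} (h : a ≤ b ^ 2) : a ^ (1 / 2 : ℝ) ≤ b := by
  have h1 := ENNReal.rpow_le_rpow h (show (0 : ℝ) ≤ 1 / 2 by norm_num)
  rwa [← ENNReal.rpow_natCast, ← ENNReal.rpow_mul, show ((2 : ℕ) : ℝ) * (1 / 2 : ℝ) = 1 by norm_num,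
    ENNReal.rpow_one] at h1

/-- the layered part of `K` -/
def layK {n : ℕ} (f : Fin n → ℝ → ℝ) (K : Set (Fin n → ℝ)) (ℓ : ℝ) (t : Fin n → ℝ) :
    Set (Fin n → ℝ) := {x | x ∈ K ∧ ∀ i, x i / ℓ ∈ lay (f i) (t i)}

/-- the scaled mass -/
noncomputable def MK {n : ℕ} (f : Fin n → ℝ → ℝ) (K : Set (Fin n → ℝ)) (ℓ : ℝ) : ℝ≥0∞ :=
  ∫⁻ x in K, ENNReal.ofReal (∏ i, f i (x i / ℓ))

lemma measurableSet_lay {n : ℕ} {f : Fin n → ℝ → ℝ} (hf : ∀ i, ELC (f i))
    {K : Set (Fin n → ℝ)} (hK : MeasurableSet K) (ℓ : ℝ) :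
    MeasurableSet {q : (Fin n → ℝ) × (Fin n → ℝ) | q.1 ∈ K ∧ ∀ i, q.1 i / ℓ ∈
      lay (f i) (q.2 i)} := by
  have h : {q : (Fin n → ℝ) × (Fin n → ℝ) | q.1 ∈ K ∧ ∀ i, q.1 i / ℓ ∈ lay (f i) (q.2 i)} =
      (Prod.fst ⁻¹' K) ∩ ⋂ i, {q : (Fin n → ℝ) × (Fin n → ℝ) |
        Real.exp (-q.2 i) < f i (q.1 i / ℓ)} := by
    ext q; simp [lay]
  rw [h]
  refine (measurable_fst hK).inter (MeasurableSet.iInter (fun i => ?_))
  refine measurableSet_lt ?_ ((hf i).measurable.comp ?_)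
  · fun_prop
  · fun_prop

lemma MK_eq {n : ℕ} {f : Fin n → ℝ → ℝ} (hf : ∀ i, ELC (f i))
    {K : Set (Fin n → ℝ)} (hK : MeasurableSet K) (ℓ : ℝ) :
    MK f K ℓ = ∫⁻ t : Fin n → ℝ, (∏ i, ENNReal.ofReal (Real.exp (-t i))) *
      volume (layK f K ℓ t) := by
  have hS := measurableSet_lay hf hK ℓ
  set S := {q : (Fin n → ℝ) × (Fin n → ℝ) | q.1 ∈ K ∧ ∀ i, q.1 i / ℓ ∈
      lay (f i) (q.2 i)} with hSdef
  have hE : Measurable (fun t : Fin n → ℝ => ∏ i, ENNReal.ofReal (Real.exp (-t i))) := by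
    fun_prop
  have hF : Measurable (Function.uncurry (fun (x t : Fin n → ℝ) =>
      (∏ i, ENNReal.ofReal (Real.exp (-t i))) * S.indicator 1 (x, t))) := by
    have : (Function.uncurry (fun (x t : Fin n → ℝ) =>
      (∏ i, ENNReal.ofReal (Real.exp (-t i))) * S.indicator (1 : (Fin n → ℝ) × (Fin n → ℝ) → ℝ≥0∞) (x, t))) =
      fun q : (Fin n → ℝ) × (Fin n → ℝ) =>
        (∏ i, ENNReal.ofReal (Real.exp (-q.2 i))) * S.indicator 1 q := by
      ext q; rfl
    rw [this]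
    exact (hE.comp measurable_snd).mul (measurable_one.indicator hS)
  have h1 : MK f K ℓ = ∫⁻ x : Fin n → ℝ, ∫⁻ t : Fin n → ℝ,
      (∏ i, ENNReal.ofReal (Real.exp (-t i))) * S.indicator 1 (x, t) := by
    unfold MK
    rw [← lintegral_indicator hK]
    refine lintegral_congr (fun x => ?_)
    by_cases hx : x ∈ K
    · rw [indicator_of_mem hx, ENNReal.ofReal_prod_of_nonneg (fun i _ => (hf i).nonneg _)]
      have h2 : ∀ t : Fin n → ℝ, (∏ i, ENNReal.ofReal (Real.exp (-t i))) *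
          S.indicator (1 : (Fin n → ℝ) × (Fin n → ℝ) → ℝ≥0∞) (x, t) =
          ∏ i, (ENNReal.ofReal (Real.exp (-t i)) * (lay (f i) (t i)).indicator 1 (x i / ℓ)) := by
        intro t
        rw [Finset.prod_mul_distrib]
        congr 1
        by_cases h3 : ∀ i, x i / ℓ ∈ lay (f i) (t i)
        · rw [indicator_of_mem (show (x, t) ∈ S from ⟨hx, h3⟩)]
          simp only [Pi.one_apply]
          rw [Finset.prod_eq_one]
          intro i _
          rw [indicator_of_mem (h3 i)]; rfl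
        · rw [indicator_of_notMem (fun h4 => h3 h4.2)]
          push Not at h3
          obtain ⟨i, hi⟩ := h3
          exact (Finset.prod_eq_zero (Finset.mem_univ i) (indicator_of_notMem hi _)).symm
      simp_rw [h2]
      rw [lintegral_prod_fin n (fun i s => ENNReal.ofReal (Real.exp (-s)) *
        (lay (f i) s).indicator 1 (x i / ℓ))]
      · refine Finset.prod_congr rfl (fun i _ => ?_)
        exact (layer_one (hf i).nonneg _).symm
      · intro i
        refine Measurable.mul (by fun_prop) ?_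
        have : (fun s => (lay (f i) s).indicator (1 : ℝ → ℝ≥0∞) (x i / ℓ)) =
            {s | Real.exp (-s) < f i (x i / ℓ)}.indicator 1 := by
          ext s
          by_cases h5 : x i / ℓ ∈ lay (f i) s
          · rw [indicator_of_mem h5, indicator_of_mem (show s ∈ {s | Real.exp (-s) <
              f i (x i / ℓ)} from h5)]; rfl
          · rw [indicator_of_notMem h5, indicator_of_notMem (show s ∉ {s | Real.exp (-s) <
              f i (x i / ℓ)} from h5)]
        rw [this]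
        exact measurable_one.indicator (measurableSet_lt (by fun_prop) measurable_const)
    · rw [indicator_of_notMem hx]
      have h2 : ∀ t : Fin n → ℝ, (∏ i, ENNReal.ofReal (Real.exp (-t i))) *
          S.indicator (1 : (Fin n → ℝ) × (Fin n → ℝ) → ℝ≥0∞) (x, t) = 0 := by
        intro t
        rw [indicator_of_notMem (fun h4 => hx h4.1), mul_zero]
      simp_rw [h2]; simp
  rw [h1, lintegral_lintegral_swap hF.aemeasurable]
  refine lintegral_congr (fun t => ?_)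
  have hSt : MeasurableSet (layK f K ℓ t) := measurable_prodMk_right hS
  have h6 : ∀ x, S.indicator (1 : (Fin n → ℝ) × (Fin n → ℝ) → ℝ≥0∞) (x, t) = (layK f K ℓ t).indicator 1 x := by
    intro x
    by_cases h7 : x ∈ layK f K ℓ t
    · rw [indicator_of_mem h7, indicator_of_mem (show (x, t) ∈ S from h7)]; rfl
    · rw [indicator_of_notMem h7, indicator_of_notMem (show (x, t) ∉ S from h7)]
  simp_rw [h6]
  rw [lintegral_const_mul _ (measurable_one.indicator hSt), lintegral_indicator hSt]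
  simp

lemma measurable_layer {n : ℕ} {f : Fin n → ℝ → ℝ} (hf : ∀ i, ELC (f i))
    {K : Set (Fin n → ℝ)} (hK : MeasurableSet K) (ℓ : ℝ) :
    Measurable (fun t : Fin n → ℝ => (∏ i, ENNReal.ofReal (Real.exp (-t i))) *
      volume (layK f K ℓ t)) := by
  refine Measurable.mul (by fun_prop) ?_
  exact measurable_measure_prodMk_right (measurableSet_lay hf hK ℓ)

/-- the joint inequality for the scaled masses -/
theorem MK_mul_le {n : ℕ} (hGL : PairGL) {f : Fin n → ℝ → ℝ} (hf : ∀ i, ELC (f i))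
    {c : ℕ} (hc : 1 ≤ c) (p : Fin (c + 1) → Fin n × Fin n) (hp : ∀ g, (p g).1 ≠ (p g).2)
    (hW : ∀ i, (∃ g, i = (p g).1 ∨ i = (p g).2) ∨ (∀ x y, f i x = f i y))
    {K₀ K₁ : Set (Fin n → ℝ)} (h₀ : Body K₀) (h₁ : Body K₁) {ℓ₀ ℓ₁ : ℝ} (hℓ₀ : 0 < ℓ₀)
    (hℓ₁ : 0 < ℓ₁) :
    MK f K₀ ℓ₀ * MK f K₁ ℓ₁ ≤
      (ENNReal.ofReal (((((ℓ₀ + ℓ₁) / 2) / Real.sqrt (ℓ₀ * ℓ₁)) ^ (c - 1)) ^ n) *
        MK f ((1 / 2 : ℝ) • (K₀ + K₁)) ((ℓ₀ + ℓ₁) / 2)) ^ 2 := by
  have hm₀ := h₀.isOpen.measurableSet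
  have hm₁ := h₁.isOpen.measurableSet
  have hKm : Body ((1 / 2 : ℝ) • (K₀ + K₁)) := (h₀.add h₁).smul (by norm_num)
  have hmm := hKm.isOpen.measurableSet
  rw [MK_eq hf hm₀, MK_eq hf hm₁, MK_eq hf hmm]
  set C : ℝ≥0∞ := ENNReal.ofReal (((((ℓ₀ + ℓ₁) / 2) / Real.sqrt (ℓ₀ * ℓ₁)) ^ (c - 1)) ^ n)
    with hC
  have half : (1 : ℝ) - 1 / 2 = 1 / 2 := by norm_num
  have key := pl_fin n (1 / 2) (by norm_num) (by norm_num)
    (fun t => (∏ i, ENNReal.ofReal (Real.exp (-t i))) * volume (layK f K₀ ℓ₀ t))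
    (fun t => (∏ i, ENNReal.ofReal (Real.exp (-t i))) * volume (layK f K₁ ℓ₁ t))
    (fun t => C * ((∏ i, ENNReal.ofReal (Real.exp (-t i))) *
      volume (layK f ((1 / 2 : ℝ) • (K₀ + K₁)) ((ℓ₀ + ℓ₁) / 2) t)))
    (measurable_layer hf hm₀ ℓ₀) (measurable_layer hf hm₁ ℓ₁)
    ((measurable_layer hf hmm _).const_mul C) ?_
  · rw [lintegral_const_mul _ (measurable_layer hf hmm _), half,
      ← ENNReal.mul_rpow_of_nonneg _ _ (by norm_num : (0 : ℝ) ≤ 1 / 2)] at key
    exact le_sq_of_rpow_half key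
  · intro t s
    rw [half, ← ENNReal.mul_rpow_of_nonneg _ _ (by norm_num : (0 : ℝ) ≤ 1 / 2)]
    have hfib := fiber hGL h₀ h₁ hℓ₀ hℓ₁ hc p hp
      (L₀ := fun i => lay (f i) (t i)) (L₁ := fun i => lay (f i) (s i))
      (L := fun i => lay (f i) ((t i + s i) / 2))
      (fun i x hx y hy => (hf i).mid hx hy)
      (fun i x hx => by simpa only [lay, mem_ofPred_eq, (hf i).even] using hx)
      (fun i x hx => by simpa only [lay, mem_ofPred_eq, (hf i).even] using hx)
      (fun i x hx => by simpa only [lay, mem_ofPred_eq, (hf i).even] using hx)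
      (fun i => (hf i).convex_lt (Real.exp_pos _).le) (fun i => (hf i).convex_lt (Real.exp_pos _).le)
      (fun i => by
        rcases hW i with h | h
        · exact Or.inl h
        · right
          rintro ⟨x, hx⟩ ⟨y, hy⟩
          ext z
          simp only [mem_univ, iff_true]
          have h5 := (hf i).mid hx hy
          simp only [lay, mem_ofPred_eq]
          rwa [h z ((x + y) / 2)])
    rw [Fintype.card_fin] at hfib
    have eT : layK f ((1 / 2 : ℝ) • (K₀ + K₁)) ((ℓ₀ + ℓ₁) / 2)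
        ((1 / 2 : ℝ) • t + (1 / 2 : ℝ) • s) = {x | x ∈ (1 / 2 : ℝ) • (K₀ + K₁) ∧
          ∀ i, x i / ((ℓ₀ + ℓ₁) / 2) ∈ lay (f i) ((t i + s i) / 2)} := by
      ext x
      simp only [layK, mem_ofPred_eq, Pi.add_apply, Pi.smul_apply, smul_eq_mul]
      have : ∀ i, 1 / 2 * t i + 1 / 2 * s i = (t i + s i) / 2 := fun i => by ring
      simp only [this]
    have eE : (∏ i, ENNReal.ofReal (Real.exp (-t i))) * (∏ i, ENNReal.ofReal (Real.exp (-s i))) =
        (∏ i, ENNReal.ofReal (Real.exp (-((1 / 2 : ℝ) • t + (1 / 2 : ℝ) • s) i))) ^ 2 := by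
      rw [← Finset.prod_mul_distrib, ← Finset.prod_pow]
      refine Finset.prod_congr rfl (fun i _ => ?_)
      rw [← ENNReal.ofReal_mul (Real.exp_pos _).le, ← ENNReal.ofReal_pow (Real.exp_pos _).le,
        ← Real.exp_add, ← Real.exp_nat_mul]
      congr 2
      simp only [Pi.add_apply, Pi.smul_apply, smul_eq_mul]
      push_cast; ring
    have hsq : ((∏ i, ENNReal.ofReal (Real.exp (-t i))) * volume (layK f K₀ ℓ₀ t)) *
        ((∏ i, ENNReal.ofReal (Real.exp (-s i))) * volume (layK f K₁ ℓ₁ s)) ≤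
        (C * ((∏ i, ENNReal.ofReal (Real.exp (-((1 / 2 : ℝ) • t + (1 / 2 : ℝ) • s) i))) *
          volume (layK f ((1 / 2 : ℝ) • (K₀ + K₁)) ((ℓ₀ + ℓ₁) / 2)
            ((1 / 2 : ℝ) • t + (1 / 2 : ℝ) • s)))) ^ 2 := by
      calc _ = ((∏ i, ENNReal.ofReal (Real.exp (-t i))) *
            (∏ i, ENNReal.ofReal (Real.exp (-s i)))) *
            (volume (layK f K₀ ℓ₀ t) * volume (layK f K₁ ℓ₁ s)) := by ring
        _ ≤ (∏ i, ENNReal.ofReal (Real.exp (-((1 / 2 : ℝ) • t + (1 / 2 : ℝ) • s) i))) ^ 2 *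
            (C * volume {x | x ∈ (1 / 2 : ℝ) • (K₀ + K₁) ∧
            ∀ i, x i / ((ℓ₀ + ℓ₁) / 2) ∈ lay (f i) ((t i + s i) / 2)}) ^ 2 := by
            rw [eE]
            exact mul_le_mul' le_rfl hfib
        _ = _ := by rw [eT]; ring
    exact rpow_half_le_of_sq hsq

end Pool.Agent.Lib.MP_2d002d_gt.H29
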