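import Mathlib

set_option autoImplicit false

/-!
A real variable lemma: a function on `[0,1]` which is above geometric-type chords is above its
chord.
-/

open Set Filter

namespace Pool.Agent.Lib.MP_2d002d_gt.H29

lemma chord {g : ℝ → ℝ} (h0 : 0 < g 0) (h1 : 0 < g 1)
    (hi : ∀ p r : ℝ, 0 ≤ p → p < r → r ≤ 1 → (1 - r) / (1 - p) * g p ≤ g r)
    (hii : ∀ r q : ℝ, 0 ≤ r → r < q → q ≤ 1 → r / q * g q ≤ g r)
    (hiii : ∀ p q t : ℝ, 0 ≤ p → p < q → q ≤ 1 → 0 < t → t < 1 →
      4 * t * (1 - t) * (g p * g q) ≤ g (t * p + (1 - t) * q) ^ 2)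
    (hnn : ∀ r : ℝ, 0 ≤ r → r ≤ 1 → 0 ≤ g r) {r : ℝ} (hr0 : 0 ≤ r) (hr1 : r ≤ 1) :
    (1 - r) * g 0 + r * g 1 ≤ g r := by
  set L : ℝ → ℝ := fun r => (1 - r) * g 0 + r * g 1 with hL
  have hLc : Continuous L := by simp only [hL]; fun_prop
  have hLpos : ∀ p : ℝ, 0 ≤ p → p ≤ 1 → 0 < L p := by
    intro p hp0 hp1
    rcases eq_or_lt_of_le hp0 with h | h
    · rw [← h]; simpa [hL] using h0
    · have : 0 ≤ (1 - p) * g 0 := mul_nonneg (by linarith) h0.le
      have : 0 < p * g 1 := mul_pos h h1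
      simp only [hL]; linarith
  by_contra hcon
  push Not at hcon
  have hcon' : g r < L r := hcon
  have hr0' : 0 < r := by
    rcases eq_or_lt_of_le hr0 with h | h
    · rw [← h] at hcon'; simp [hL] at hcon'
    · exact h
  have hr1' : r < 1 := by
    rcases eq_or_lt_of_le hr1 with h | h
    · rw [h] at hcon'; simp [hL] at hcon'
    · exact h
  -- the left point
  set S : Set ℝ := {p | p ∈ Icc 0 r ∧ L p ≤ g p} with hS
  have hS0 : (0 : ℝ) ∈ S := ⟨⟨le_rfl, hr0⟩, by simp [hL]⟩
  have hSb : BddAbove S := ⟨r, fun p hp => hp.1.2⟩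
  set p := sSup S with hp
  have hp0 : 0 ≤ p := le_csSup hSb hS0
  have hpr : p ≤ r := csSup_le ⟨0, hS0⟩ (fun x hx => hx.1.2)
  have hpL : L p ≤ g p := by
    have c1 : Continuous fun x : ℝ => (1 - p) * L x := continuous_const.mul hLc
    have c2 : Continuous fun x : ℝ => (1 - x) * g p := by fun_prop
    have hT : IsClosed {x : ℝ | x ∈ Icc 0 r ∧ (1 - p) * L x ≤ (1 - x) * g p} :=
      isClosed_Icc.inter (isClosed_le c1 c2)
    have hST : S ⊆ {x : ℝ | x ∈ Icc 0 r ∧ (1 - p) * L x ≤ (1 - x) * g p} := by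
      intro x hx
      refine ⟨hx.1, ?_⟩
      have hxp : x ≤ p := le_csSup hSb hx
      have hx1 : 0 < 1 - x := by have := hx.1.2; linarith
      rcases eq_or_lt_of_le hxp with h | h
      · rw [← h]; exact mul_le_mul_of_nonneg_left hx.2 hx1.le
      · have h5 := hi x p hx.1.1 h (by linarith)
        rw [div_mul_eq_mul_div, div_le_iff₀ hx1] at h5
        have : (1 - p) * L x ≤ (1 - p) * g x := mul_le_mul_of_nonneg_left hx.2 (by linarith)
        linarith
    have := (hT.closure_subset_iff.2 hST) (csSup_mem_closure ⟨0, hS0⟩ hSb)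
    exact le_of_mul_le_mul_left this.2 (by linarith)
  have hpr' : p < r := by
    rcases eq_or_lt_of_le hpr with h | h
    · rw [h] at hpL; linarith
    · exact h
  -- the right point
  set S' : Set ℝ := {q | q ∈ Icc r 1 ∧ L q ≤ g q} with hS'
  have hS1 : (1 : ℝ) ∈ S' := ⟨⟨hr1, le_rfl⟩, by simp [hL]⟩
  have hSb' : BddBelow S' := ⟨r, fun q hq => hq.1.1⟩
  set q := sInf S' with hq
  have hq1 : q ≤ 1 := csInf_le hSb' hS1
  have hqr : r ≤ q := le_csInf ⟨1, hS1⟩ (fun x hx => hx.1.1)
  have hq0 : 0 < q := by linarith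
  have hqL : L q ≤ g q := by
    have c1 : Continuous fun x : ℝ => q * L x := continuous_const.mul hLc
    have c2 : Continuous fun x : ℝ => x * g q := by fun_prop
    have hT : IsClosed {x : ℝ | x ∈ Icc r 1 ∧ q * L x ≤ x * g q} :=
      isClosed_Icc.inter (isClosed_le c1 c2)
    have hST : S' ⊆ {x : ℝ | x ∈ Icc r 1 ∧ q * L x ≤ x * g q} := by
      intro x hx
      refine ⟨hx.1, ?_⟩
      have hxq : q ≤ x := csInf_le hSb' hx
      have hx0 : 0 < x := by linarith
      rcases eq_or_lt_of_le hxq with h | h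
      · rw [h]; exact mul_le_mul_of_nonneg_left hx.2 hx0.le
      · have h5 := hii q x hq0.le h hx.1.2
        rw [div_mul_eq_mul_div, div_le_iff₀ hx0] at h5
        have : q * L x ≤ q * g x := mul_le_mul_of_nonneg_left hx.2 hq0.le
        linarith
    have := (hT.closure_subset_iff.2 hST) (csInf_mem_closure ⟨1, hS1⟩ hSb')
    exact le_of_mul_le_mul_left this.2 hq0
  have hqr' : r < q := by
    rcases eq_or_lt_of_le hqr with h | h
    · rw [← h] at hqL; linarith
    · exact h
  -- the special point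
  have hLp := hLpos p hp0 (by linarith)
  have hLq := hLpos q hq0.le hq1
  set t : ℝ := L q / (L p + L q) with ht
  have ht0 : 0 < t := div_pos hLq (by linarith)
  have ht1 : t < 1 := by
    rw [ht, div_lt_one (by linarith)]; linarith
  have e1 : t * L p = (1 - t) * L q := by
    rw [ht]; field_simp; ring
  set x : ℝ := t * p + (1 - t) * q with hx
  have hxp : p < x := by
    have : 0 < (1 - t) * (q - p) := mul_pos (by linarith) (by linarith)
    rw [hx]; linarith
  have hxq : x < q := by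
    have : 0 < t * (q - p) := mul_pos ht0 (by linarith)
    rw [hx]; linarith
  have hLx : L x = t * L p + (1 - t) * L q := by
    simp only [hL, hx]; ring
  have hLx0 : 0 < L x := hLpos x (by linarith) (by linarith)
  have h6 := hiii p q t hp0 (by linarith) hq1 ht0 ht1
  have h7 : L x ^ 2 ≤ g x ^ 2 := by
    refine le_trans ?_ h6
    have h8 : L p * L q ≤ g p * g q := mul_le_mul hpL hqL hLq.le (hLp.le.trans hpL)
    have h9 : 4 * t * (1 - t) * (L p * L q) ≤ 4 * t * (1 - t) * (g p * g q) :=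
      mul_le_mul_of_nonneg_left h8 (by
        have : 0 < 1 - t := by linarith
        positivity)
    refine le_trans (le_of_eq ?_) h9
    have : 4 * t * (1 - t) * (L p * L q) = 4 * (t * L p) * ((1 - t) * L q) := by ring
    rw [this, hLx, ← e1]; ring
  have hgx : L x ≤ g x :=
    (pow_le_pow_iff_left₀ hLx0.le (hnn x (by linarith) (by linarith)) two_ne_zero).1 h7
  rcases le_total x r with h | h
  · have : x ≤ p := le_csSup hSb ⟨⟨by linarith, h⟩, hgx⟩
    linarith
  · have : q ≤ x := csInf_le hSb' ⟨⟨h, by linarith⟩, hgx⟩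
    linarith

end Pool.Agent.Lib.MP_2d002d_gt.H29
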