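import Mathlib
import Pool.Agent.Lib.MP_2d002d_gt.H29.Chord
import Pool.Agent.Lib.MP_2d002d_gt.H29.LC

set_option autoImplicit false

/-!
From the quadratic inequality `(4t(1-t))^d μ(A) μ(B) ≤ μ(tA + (1-t)B)²` to Brunn-Minkowski with
exponent `1 / d`.
-/

open MeasureTheory Set Filter
open scoped ENNReal NNReal Pointwise

namespace Pool.Agent.Lib.MP_2d002d_gt.H29

variable {ι : Type*} [Fintype ι]

/-- The quadratic inequality on bodies. -/
def HD (μ : Measure (ι → ℝ)) (d : ℕ) : Prop :=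
  ∀ A₀ A₁ : Set (ι → ℝ), Body A₀ → Body A₁ → ∀ t : ℝ, 0 < t → t < 1 →
    ENNReal.ofReal ((4 * t * (1 - t)) ^ d) * (μ A₀ * μ A₁) ≤ μ (t • A₀ + (1 - t) • A₁) ^ 2

/-- Radial monotonicity on bodies. -/
def RM (μ : Measure (ι → ℝ)) (d : ℕ) : Prop :=
  ∀ A : Set (ι → ℝ), Body A → ∀ θ : ℝ, 0 < θ → θ ≤ 1 →
    ENNReal.ofReal (θ ^ d) * μ A ≤ μ (θ • A)

/-- The segment of sets. -/
def seg01 (A₀ A₁ : Set (ι → ℝ)) (r : ℝ) : Set (ι → ℝ) := (1 - r) • A₀ + r • A₁

lemma Body.seg {A₀ A₁ : Set (ι → ℝ)} (h₀ : Body A₀) (h₁ : Body A₁) {r : ℝ} (hr0 : 0 ≤ r)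
    (hr1 : r ≤ 1) : Body (seg01 A₀ A₁ r) := by
  unfold seg01
  rcases eq_or_lt_of_le hr0 with h | h
  · rw [← h, sub_zero, one_smul, zero_smul_set h₁.nonempty, add_zero]; exact h₀
  rcases eq_or_lt_of_le hr1 with h' | h'
  · rw [h', sub_self, one_smul, zero_smul_set h₀.nonempty, zero_add]; exact h₁
  exact (h₀.smul (by linarith)).add (h₁.smul h)

lemma Body.smul_subset {K : Set (ι → ℝ)} (hK : Body K) {a b : ℝ} (ha : 0 ≤ a) (hab : a ≤ b) :
    a • K ⊆ b • K := by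
  rcases eq_or_lt_of_le (ha.trans hab) with h | h
  · have : a = 0 := le_antisymm (by rw [h]; exact hab) ha
    rw [this, ← h]
  · rintro _ ⟨x, hx, rfl⟩
    refine ⟨(a / b) • x, hK.smul_mem hx (by positivity) ((div_le_one h).2 hab), ?_⟩
    simp only [smul_smul]
    congr 1
    field_simp

/-- Brunn-Minkowski for bodies. -/
theorem bm_body {μ : Measure (ι → ℝ)} {d : ℕ} (hd : 1 ≤ d)
    (hfin : ∀ A, Bornology.IsBounded A → μ A ≠ ∞) (hRM : RM μ d) (hHD : HD μ d)
    {A B : Set (ι → ℝ)} (hA : Body A) (hB : Body B) {t : ℝ} (ht0 : 0 < t) (ht1 : t < 1) :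
    ENNReal.ofReal t * (μ A) ^ (1 / (d : ℝ)) + ENNReal.ofReal (1 - t) * (μ B) ^ (1 / (d : ℝ)) ≤
      (μ (t • A + (1 - t) • B)) ^ (1 / (d : ℝ)) := by
  have hd0 : (0 : ℝ) < d := by exact_mod_cast hd
  have hd1 : (0 : ℝ) < 1 / (d : ℝ) := by positivity
  have hpow : ∀ θ : ℝ, 0 < θ → ∀ x : ℝ≥0∞,
      ENNReal.ofReal θ * x ^ (1 / (d : ℝ)) = (ENNReal.ofReal (θ ^ d) * x) ^ (1 / (d : ℝ)) := by
    intro θ hθ x
    rw [ENNReal.mul_rpow_of_nonneg _ _ hd1.le, ENNReal.ofReal_pow hθ.le, ← ENNReal.rpow_natCast,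
      ← ENNReal.rpow_mul, mul_one_div_cancel hd0.ne', ENNReal.rpow_one]
  have hsegt : seg01 B A t = t • A + (1 - t) • B := by unfold seg01; rw [add_comm]
  rcases eq_or_ne (μ A) 0 with hA0 | hA0
  · rw [hA0, ENNReal.zero_rpow_of_pos hd1, mul_zero, zero_add, hpow _ (by linarith)]
    refine ENNReal.rpow_le_rpow ((hRM B hB (1 - t) (by linarith) (by linarith)).trans
      (measure_mono ?_)) hd1.le
    rintro _ ⟨x, hx, rfl⟩
    exact ⟨0, ⟨0, hA.zero_mem, by simp⟩, _, ⟨x, hx, rfl⟩, by simp⟩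
  rcases eq_or_ne (μ B) 0 with hB0 | hB0
  · rw [hB0, ENNReal.zero_rpow_of_pos hd1, mul_zero, add_zero, hpow _ ht0]
    refine ENNReal.rpow_le_rpow ((hRM A hA t ht0 ht1.le).trans
      (measure_mono ?_)) hd1.le
    rintro _ ⟨x, hx, rfl⟩
    exact ⟨_, ⟨x, hx, rfl⟩, 0, ⟨0, hB.zero_mem, by simp⟩, by simp⟩
  -- the function
  set P : ℝ → Set (ι → ℝ) := seg01 B A with hP
  have hPb : ∀ r : ℝ, 0 ≤ r → r ≤ 1 → Body (P r) := fun r h0 h1 => hB.seg hA h0 h1
  have hPf : ∀ r : ℝ, 0 ≤ r → r ≤ 1 → μ (P r) ≠ ∞ := fun r h0 h1 => hfin _ (hPb r h0 h1).bdd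
  have hP0 : P 0 = B := by
    simp only [hP, seg01]; rw [sub_zero, one_smul, zero_smul_set hA.nonempty, add_zero]
  have hP1 : P 1 = A := by
    simp only [hP, seg01]; rw [sub_self, one_smul, zero_smul_set hB.nonempty, zero_add]
  set g : ℝ → ℝ := fun r => (μ (P r)).toReal ^ (1 / (d : ℝ)) with hg
  have gpow : ∀ r, g r ^ d = (μ (P r)).toReal := by
    intro r
    simp only [hg]
    rw [← Real.rpow_natCast, ← Real.rpow_mul ENNReal.toReal_nonneg, one_div_mul_cancel hd0.ne',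
      Real.rpow_one]
  have gnn : ∀ r, 0 ≤ g r := fun r => Real.rpow_nonneg ENNReal.toReal_nonneg _
  have hscale : ∀ p r θ : ℝ, 0 ≤ p → p ≤ 1 → 0 ≤ r → r ≤ 1 → 0 < θ → θ ≤ 1 →
      θ • P p ⊆ P r → θ * g p ≤ g r := by
    intro p r θ hp0 hp1 hr0 hr1 hθ0 hθ1 hsub
    have h1 := (hRM (P p) (hPb p hp0 hp1) θ hθ0 hθ1).trans (measure_mono hsub)
    have h2 := ENNReal.toReal_mono (hPf r hr0 hr1) h1
    rw [ENNReal.toReal_mul, ENNReal.toReal_ofReal (by positivity), ← gpow, ← gpow,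
      ← mul_pow] at h2
    exact (pow_le_pow_iff_left₀ (mul_nonneg hθ0.le (gnn p)) (gnn r) (by omega)).1 h2
  have g0 : 0 < g 0 := by
    simp only [hg, hP0]
    exact Real.rpow_pos_of_pos (ENNReal.toReal_pos hB0 (hfin _ hB.bdd)) _
  have g1 : 0 < g 1 := by
    simp only [hg, hP1]
    exact Real.rpow_pos_of_pos (ENNReal.toReal_pos hA0 (hfin _ hA.bdd)) _
  have key := chord (g := g) g0 g1 ?_ ?_ ?_ (fun r _ _ => gnn r) ht0.le ht1.le
  · -- back to `ENNReal`
    have e : ∀ x : ℝ≥0∞, x ≠ ∞ → x ^ (1 / (d : ℝ)) = ENNReal.ofReal (x.toReal ^ (1 / (d : ℝ))) := by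
      intro x hx
      rw [ENNReal.toReal_rpow, ENNReal.ofReal_toReal (ENNReal.rpow_ne_top_of_nonneg hd1.le hx)]
    rw [← hsegt, e _ (hfin _ hA.bdd), e _ (hfin _ hB.bdd), e _ (hPf t ht0.le ht1.le),
      ← ENNReal.ofReal_mul ht0.le, ← ENNReal.ofReal_mul (by linarith),
      ← ENNReal.ofReal_add (by positivity) (mul_nonneg (by linarith) (by positivity))]
    refine ENNReal.ofReal_le_ofReal ?_
    simp only [hg, hP0, hP1] at key
    linarith
  · -- (i)
    intro p r hp0 hpr hr1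
    rcases eq_or_lt_of_le hr1 with h | h
    · rw [h]; simp only [sub_self, zero_div, zero_mul]; exact gnn 1
    refine hscale p r _ hp0 (by linarith) (by linarith) hr1 (div_pos (by linarith) (by linarith))
      ((div_le_one (by linarith)).2 (by linarith)) ?_
    have hp1 : 0 < 1 - p := by linarith
    simp only [hP, seg01, smul_add, smul_smul]
    rw [div_mul_cancel₀ _ hp1.ne']
    refine add_subset_add_left (hA.smul_subset (mul_nonneg (div_nonneg (by linarith) hp1.le) hp0) ?_)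
    rw [div_mul_eq_mul_div, div_le_iff₀ hp1]
    nlinarith
  · -- (ii)
    intro r q hr0 hrq hq1
    rcases eq_or_lt_of_le hr0 with h | h
    · rw [← h]; simp only [zero_div, zero_mul]; exact gnn 0
    have hq0 : 0 < q := by linarith
    refine hscale q r _ hq0.le hq1 hr0 (by linarith) (div_pos h hq0)
      ((div_le_one hq0).2 hrq.le) ?_
    simp only [hP, seg01, smul_add, smul_smul]
    rw [div_mul_cancel₀ _ hq0.ne']
    refine add_subset_add_right (hB.smul_subset (mul_nonneg (div_nonneg hr0 hq0.le)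
      (by linarith)) ?_)
    rw [div_mul_eq_mul_div, div_le_iff₀ hq0]
    nlinarith
  · -- (iii)
    intro p q s hp0 hpq hq1 hs0 hs1
    have hq0 : 0 < q := by linarith
    have hB1 : Body (P p) := hPb p hp0 (by linarith)
    have hB2 : Body (P q) := hPb q hq0.le hq1
    have h1 := hHD (P p) (P q) hB1 hB2 s hs0 hs1
    have hx0 : 0 ≤ s * p + (1 - s) * q := add_nonneg (mul_nonneg hs0.le hp0)
      (mul_nonneg (by linarith) hq0.le)
    have hx1 : s * p + (1 - s) * q ≤ 1 := by nlinarith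
    have hsub : s • P p + (1 - s) • P q ⊆ P (s * p + (1 - s) * q) := by
      simp only [hP, seg01, smul_add, smul_smul]
      have e1 : (1 - (s * p + (1 - s) * q)) • B = (s * (1 - p)) • B + ((1 - s) * (1 - q)) • B := by
        rw [← hB.convex.add_smul (mul_nonneg hs0.le (by linarith))
          (mul_nonneg (by linarith) (by linarith))]
        congr 1; ring
      have e2 : (s * p + (1 - s) * q) • A = (s * p) • A + ((1 - s) * q) • A := by
        rw [← hA.convex.add_smul (mul_nonneg hs0.le hp0) (mul_nonneg (by linarith) hq0.le)]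
      rw [e1, e2]
      exact (add_add_add_comm _ _ _ _).le
    have h2 := h1.trans (pow_le_pow_left' (measure_mono hsub) 2)
    have h3 := ENNReal.toReal_mono (ENNReal.pow_ne_top (hPf _ hx0 hx1)) h2
    have hc : 0 < 4 * s * (1 - s) := by
      have : 0 < 1 - s := by linarith
      positivity
    rw [ENNReal.toReal_mul, ENNReal.toReal_mul, ENNReal.toReal_pow,
      ENNReal.toReal_ofReal (by positivity), ← gpow, ← gpow, ← gpow, ← mul_pow, ← mul_pow,
      ← pow_mul, mul_comm d 2, pow_mul] at h3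
    exact (pow_le_pow_iff_left₀ (mul_nonneg hc.le (mul_nonneg (gnn p) (gnn q)))
      (by positivity) (by omega)).1 h3

end Pool.Agent.Lib.MP_2d002d_gt.H29
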