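import Mathlib
import Pool.Agent.Lib.MP_2d002d_gt.H29.ToBM

set_option autoImplicit false

/-!
Brunn-Minkowski for all nonempty symmetric convex sets.
-/

open MeasureTheory Set Filter
open scoped ENNReal NNReal Pointwise

namespace Pool.Agent.Lib.MP_2d002d_gt.H29

variable {ι : Type*} [Fintype ι]

lemma measure_interior_eq {μ : Measure (ι → ℝ)} (hac : μ ≪ volume) {A : Set (ι → ℝ)}
    (hA : Convex ℝ A) : μ (interior A) = μ A := by
  refine le_antisymm (measure_mono interior_subset) ?_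
  have h1 : A ⊆ interior A ∪ frontier A := by
    intro x hx
    by_cases h : x ∈ interior A
    · exact Or.inl h
    · exact Or.inr ⟨subset_closure hx, h⟩
  calc μ A ≤ μ (interior A) + μ (frontier A) := (measure_mono h1).trans (measure_union_le _ _)
    _ = μ (interior A) := by rw [hac (hA.addHaar_frontier volume), add_zero]

omit [Fintype ι] in
lemma zero_mem_of_symm {A : Set (ι → ℝ)} (hA : Convex ℝ A) (hs : ∀ x ∈ A, -x ∈ A)
    (hne : A.Nonempty) : (0 : ι → ℝ) ∈ A := by
  obtain ⟨x, hx⟩ := hne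
  have := hA hx (hs x hx) (show (0 : ℝ) ≤ 1 / 2 by norm_num)
    (show (0 : ℝ) ≤ 1 / 2 by norm_num) (by norm_num)
  simpa using this

/-- truncated interior -/
def trunc (A : Set (ι → ℝ)) (R : ℕ) : Set (ι → ℝ) := interior A ∩ Metric.ball 0 ((R : ℝ) + 1)

lemma trunc_body {A : Set (ι → ℝ)} (hA : Convex ℝ A) (hs : ∀ x ∈ A, -x ∈ A)
    (hne : (interior A).Nonempty) (R : ℕ) : Body (trunc A R) where
  isOpen := isOpen_interior.inter Metric.isOpen_ball
  bdd := Metric.isBounded_ball.subset inter_subset_right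
  convex := hA.interior.inter (convex_ball _ _)
  symm := by
    rintro x ⟨hx, hx'⟩
    have hneg : -A = A := by
      ext y
      simp only [Set.mem_neg]
      exact ⟨fun h => by simpa using hs _ h, fun h => hs _ h⟩
    refine ⟨?_, by simpa using hx'⟩
    have h1 : interior (-A) = -interior A := by
      exact (Homeomorph.neg (ι → ℝ)).preimage_interior A |>.symm
    rw [hneg] at h1
    rw [h1]
    simpa using hx
  nonempty := by
    have hsym : ∀ x ∈ interior A, -x ∈ interior A := by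
      intro x hx
      have hneg : -A = A := by
        ext y
        simp only [Set.mem_neg]
        exact ⟨fun h => by simpa using hs _ h, fun h => hs _ h⟩
      have h1 : interior (-A) = -interior A := by
        exact (Homeomorph.neg (ι → ℝ)).preimage_interior A |>.symm
      rw [hneg] at h1
      rw [h1]
      simpa using hx
    refine ⟨0, zero_mem_of_symm hA.interior hsym hne, ?_⟩
    simp; positivity

lemma trunc_subset (A : Set (ι → ℝ)) (R : ℕ) : trunc A R ⊆ A :=
  inter_subset_left.trans interior_subset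

lemma tendsto_trunc {μ : Measure (ι → ℝ)} (hac : μ ≪ volume) {A : Set (ι → ℝ)}
    (hA : Convex ℝ A) : Tendsto (fun R => μ (trunc A R)) atTop (nhds (μ A)) := by
  rw [← measure_interior_eq hac hA]
  have h1 : interior A = ⋃ R, trunc A R := by
    ext x
    simp only [trunc, mem_iUnion, mem_inter_iff, exists_and_left]
    constructor
    · intro hx
      refine ⟨hx, ?_⟩
      obtain ⟨n, hn⟩ := exists_nat_gt ‖x‖
      exact ⟨n, by simp; linarith⟩
    · exact fun h => h.1
  conv_rhs => rw [h1]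
  refine tendsto_measure_iUnion_atTop ?_
  intro R R' hR
  refine inter_subset_inter_right _ (Metric.ball_subset_ball ?_)
  have : (R : ℝ) ≤ R' := by exact_mod_cast hR
  linarith

/-- **Brunn-Minkowski with exponent `1/d`** for all nonempty symmetric convex sets. -/
theorem bm_general {μ : Measure (ι → ℝ)} (hac : μ ≪ volume) {d : ℕ} (hd : 1 ≤ d)
    (hfin : ∀ A, Bornology.IsBounded A → μ A ≠ ∞) (hRM : RM μ d) (hHD : HD μ d)
    {A B : Set (ι → ℝ)} (hA : Convex ℝ A) (hB : Convex ℝ B) (hAn : A.Nonempty) (hBn : B.Nonempty)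
    (hAs : ∀ x ∈ A, -x ∈ A) (hBs : ∀ x ∈ B, -x ∈ B) {t : ℝ} (ht0 : 0 ≤ t) (ht1 : t ≤ 1) :
    ENNReal.ofReal t * (μ A) ^ (1 / (d : ℝ)) + ENNReal.ofReal (1 - t) * (μ B) ^ (1 / (d : ℝ)) ≤
      (μ (t • A + (1 - t) • B)) ^ (1 / (d : ℝ)) := by
  have hd0 : (0 : ℝ) < d := by exact_mod_cast hd
  have hd1 : (0 : ℝ) < 1 / (d : ℝ) := by positivity
  rcases eq_or_lt_of_le ht0 with h | ht0'
  · rw [← h, zero_smul_set hAn]; simp
  rcases eq_or_lt_of_le ht1 with h | ht1'
  · rw [h, sub_self, zero_smul_set hBn]; simp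
  have hpow : ∀ θ : ℝ, 0 < θ → ∀ x : ℝ≥0∞,
      ENNReal.ofReal θ * x ^ (1 / (d : ℝ)) = (ENNReal.ofReal (θ ^ d) * x) ^ (1 / (d : ℝ)) := by
    intro θ hθ x
    rw [ENNReal.mul_rpow_of_nonneg _ _ hd1.le, ENNReal.ofReal_pow hθ.le, ← ENNReal.rpow_natCast,
      ← ENNReal.rpow_mul, mul_one_div_cancel hd0.ne', ENNReal.rpow_one]
  -- radial monotonicity for all sets
  have hrad : ∀ A : Set (ι → ℝ), Convex ℝ A → (∀ x ∈ A, -x ∈ A) → ∀ θ : ℝ, 0 < θ → θ ≤ 1 →
      ENNReal.ofReal θ * (μ A) ^ (1 / (d : ℝ)) ≤ (μ (θ • A)) ^ (1 / (d : ℝ)) := by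
    intro A hA hAs θ hθ0 hθ1
    rcases (interior A).eq_empty_or_nonempty with h | h
    · have : μ A = 0 := by rw [← measure_interior_eq hac hA, h, measure_empty]
      rw [this, ENNReal.zero_rpow_of_pos hd1, mul_zero]; exact bot_le
    · rw [hpow θ hθ0]
      refine ENNReal.rpow_le_rpow ?_ hd1.le
      refine le_of_tendsto' (ENNReal.Tendsto.const_mul (tendsto_trunc hac hA)
        (Or.inr ENNReal.ofReal_ne_top)) (fun R => ?_)
      exact (hRM _ (trunc_body hA hAs h R) θ hθ0 hθ1).trans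
        (measure_mono (smul_set_mono (trunc_subset A R)))
  rcases (interior A).eq_empty_or_nonempty with h | hAi
  · have : μ A = 0 := by rw [← measure_interior_eq hac hA, h, measure_empty]
    rw [this, ENNReal.zero_rpow_of_pos hd1, mul_zero, zero_add]
    refine (hrad B hB hBs _ (by linarith) (by linarith)).trans
      (ENNReal.rpow_le_rpow (measure_mono ?_) hd1.le)
    rintro _ ⟨x, hx, rfl⟩
    exact ⟨0, ⟨0, zero_mem_of_symm hA hAs hAn, by simp⟩, _, ⟨x, hx, rfl⟩, by simp⟩
  rcases (interior B).eq_empty_or_nonempty with h | hBi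
  · have : μ B = 0 := by rw [← measure_interior_eq hac hB, h, measure_empty]
    rw [this, ENNReal.zero_rpow_of_pos hd1, mul_zero, add_zero]
    refine (hrad A hA hAs _ ht0' ht1).trans (ENNReal.rpow_le_rpow (measure_mono ?_) hd1.le)
    rintro _ ⟨x, hx, rfl⟩
    exact ⟨_, ⟨x, hx, rfl⟩, 0, ⟨0, zero_mem_of_symm hB hBs hBn, by simp⟩, by simp⟩
  refine le_of_tendsto' (Tendsto.add
    (ENNReal.Tendsto.const_mul ((tendsto_trunc hac hA).ennrpow_const (1 / (d : ℝ)))
      (Or.inr ENNReal.ofReal_ne_top))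
    (ENNReal.Tendsto.const_mul ((tendsto_trunc hac hB).ennrpow_const (1 / (d : ℝ)))
      (Or.inr ENNReal.ofReal_ne_top))) (fun R => ?_)
  refine (bm_body hd hfin hRM hHD (trunc_body hA hAs hAi R) (trunc_body hB hBs hBi R) ht0'
    ht1').trans (ENNReal.rpow_le_rpow (measure_mono ?_) hd1.le)
  exact add_subset_add (smul_set_mono (trunc_subset A R)) (smul_set_mono (trunc_subset B R))

end Pool.Agent.Lib.MP_2d002d_gt.H29
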