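import Mathlib
import Pool.Agent.Lib.MP_2d002d_gt.H29.Layer
import Pool.Agent.Lib.MP_2d002d_gt.H29.General

set_option autoImplicit false

/-!
The final assembly.
-/

open MeasureTheory Set Filter
open scoped ENNReal NNReal Pointwise

namespace Pool.Agent.Lib.MP_2d002d_gt.H29

open Pool.Agent.Lib.MP_2d002d_gt.LB

/-- the product measure -/
noncomputable def mu {n : ℕ} (f : Fin n → ℝ → ℝ) : Measure (Fin n → ℝ) :=
  (volume : Measure (Fin n → ℝ)).withDensity (fun x => ENNReal.ofReal (∏ i, f i (x i)))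

lemma measurable_dens {n : ℕ} {f : Fin n → ℝ → ℝ} (hf : ∀ i, ELC (f i)) :
    Measurable (fun x : Fin n → ℝ => ENNReal.ofReal (∏ i, f i (x i))) :=
  (Finset.measurable_prod _ (fun i _ => (hf i).measurable.comp (measurable_pi_apply i))).ennreal_ofReal

lemma MK_smul {n : ℕ} {f : Fin n → ℝ → ℝ} (hf : ∀ i, ELC (f i)) {ℓ : ℝ} (hℓ : 0 < ℓ)
    {A : Set (Fin n → ℝ)} (hA : MeasurableSet A) :
    MK f (ℓ • A) ℓ = ENNReal.ofReal (ℓ ^ n) * mu f A := by
  unfold MK mu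
  rw [withDensity_apply _ hA, ← lintegral_indicator (hA.const_smul₀ ℓ), ← lintegral_indicator hA]
  have h := lintegral_comp_smul' (ι := Fin n) (inv_ne_zero hℓ.ne')
    ((measurable_dens hf).indicator hA)
  rw [Fintype.card_fin, ← inv_pow, inv_inv, abs_of_pos (by positivity)] at h
  rw [← h]
  refine lintegral_congr (fun x => ?_)
  by_cases hx : x ∈ ℓ • A
  · rw [indicator_of_mem hx, indicator_of_mem ((mem_smul_set_iff_inv_smul_mem₀ hℓ.ne' A x).1 hx)]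
    simp only [Pi.smul_apply, smul_eq_mul, div_eq_inv_mul]
  · rw [indicator_of_notMem hx,
      indicator_of_notMem (fun h => hx ((mem_smul_set_iff_inv_smul_mem₀ hℓ.ne' A x).2 h))]

lemma real_id {t : ℝ} (ht0 : 0 < t) (ht1 : t < 1) (n : ℕ) {c : ℕ} (hc : 1 ≤ c) :
    (4 * t * (1 - t)) ^ (n * c) / (t * (1 - t)) ^ n *
      (((1 / 2 / Real.sqrt (t * (1 - t))) ^ (c - 1)) ^ n * (1 / 2) ^ n) ^ 2 = 1 := by
  obtain ⟨e, rfl⟩ : ∃ e, c = e + 1 := ⟨c - 1, by omega⟩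
  have hτ0 : 0 < t * (1 - t) := mul_pos ht0 (by linarith)
  have h4 : 4 * t * (1 - t) = 4 * (t * (1 - t)) := by ring
  rw [h4, Nat.add_sub_cancel]
  set τ : ℝ := t * (1 - t) with hτ
  have hsq : 0 < Real.sqrt τ := Real.sqrt_pos.2 hτ0
  have hq : (1 / 2 / Real.sqrt τ) ^ 2 = (4 * τ)⁻¹ := by
    rw [div_pow, Real.sq_sqrt hτ0.le]
    field_simp
    norm_num
  generalize 1 / 2 / Real.sqrt τ = q at hq ⊢
  have h1 : (4 * τ) ^ (n * (e + 1)) / τ ^ n * ((q ^ e) ^ n * (1 / 2) ^ n) ^ 2 =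
      ((4 * τ) ^ (e + 1) / τ * ((q ^ 2) ^ e * (1 / 2) ^ 2)) ^ n := by
    have a1 : (4 * τ) ^ (n * (e + 1)) = ((4 * τ) ^ (e + 1)) ^ n := by
      rw [← pow_mul, mul_comm n (e + 1)]
    have a2 : ((q ^ e) ^ n * (1 / 2) ^ n) ^ 2 = ((q ^ 2) ^ e * (1 / 2) ^ 2) ^ n := by
      rw [← mul_pow, ← pow_mul, mul_comm n 2, pow_mul, mul_pow]
      congr 2
      rw [← pow_mul, ← pow_mul, mul_comm e 2]
    rw [a1, a2, ← div_pow, ← mul_pow]
  have h2 : (4 * τ) ^ (e + 1) / τ * ((q ^ 2) ^ e * (1 / 2) ^ 2) = 1 := by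
    rw [hq, inv_pow, pow_succ]
    field_simp
    norm_num
  rw [h1, h2, one_pow]

lemma HD_mu {n : ℕ} (hGL : PairGL) {f : Fin n → ℝ → ℝ} (hf : ∀ i, ELC (f i))
    {c : ℕ} (hc : 1 ≤ c) (p : Fin (c + 1) → Fin n × Fin n) (hp : ∀ g, (p g).1 ≠ (p g).2)
    (hW : ∀ i, (∃ g, i = (p g).1 ∨ i = (p g).2) ∨ (∀ x y, f i x = f i y)) :
    HD (mu f) (n * c) := by
  intro A₀ A₁ h₀ h₁ t ht0 ht1
  have ht1' : 0 < 1 - t := by linarith
  have key := MK_mul_le hGL hf hc p hp hW (h₀.smul ht0) (h₁.smul ht1') ht0 ht1'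
  have hS : Body (t • A₀ + (1 - t) • A₁) := (h₀.smul ht0).add (h₁.smul ht1')
  have e1 : (t + (1 - t)) / 2 = 1 / 2 := by ring
  rw [e1, MK_smul hf ht0 h₀.isOpen.measurableSet, MK_smul hf ht1' h₁.isOpen.measurableSet,
    MK_smul hf (by norm_num : (0 : ℝ) < 1 / 2) hS.isOpen.measurableSet] at key
  set τ : ℝ := t * (1 - t) with hτ
  have hτ0 : 0 < τ := mul_pos ht0 ht1'
  have hsq : 0 < Real.sqrt τ := Real.sqrt_pos.2 hτ0
  have hsq2 : Real.sqrt τ ^ 2 = τ := Real.sq_sqrt hτ0.le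
  set X := mu f A₀
  set Y := mu f A₁
  set Z := mu f (t • A₀ + (1 - t) • A₁)
  set κ : ℝ := (4 * t * (1 - t)) ^ (n * c) / τ ^ n with hκ
  have hκ0 : 0 < κ := by
    have : 0 < 4 * t * (1 - t) := by positivity
    positivity
  have e2 : ENNReal.ofReal ((4 * t * (1 - t)) ^ (n * c)) * (X * Y) =
      ENNReal.ofReal κ * (ENNReal.ofReal (t ^ n) * X * (ENNReal.ofReal ((1 - t) ^ n) * Y)) := by
    have : ENNReal.ofReal ((4 * t * (1 - t)) ^ (n * c)) =
        ENNReal.ofReal κ * (ENNReal.ofReal (t ^ n) * ENNReal.ofReal ((1 - t) ^ n)) := by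
      rw [← ENNReal.ofReal_mul (by positivity), ← ENNReal.ofReal_mul hκ0.le]
      congr 1
      rw [hκ, ← mul_pow, ← hτ]
      field_simp
    rw [this]; ring
  rw [e2]
  refine (mul_le_mul' le_rfl key).trans (le_of_eq ?_)
  have e3 : ENNReal.ofReal κ * (ENNReal.ofReal (((1 / 2 / Real.sqrt τ) ^ (c - 1)) ^ n) *
      (ENNReal.ofReal ((1 / 2) ^ n) * Z)) ^ 2 =
      ENNReal.ofReal (κ * (((1 / 2 / Real.sqrt τ) ^ (c - 1)) ^ n * (1 / 2) ^ n) ^ 2) * Z ^ 2 := by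
    have h1 : ENNReal.ofReal (κ * (((1 / 2 / Real.sqrt τ) ^ (c - 1)) ^ n * (1 / 2) ^ n) ^ 2) =
        ENNReal.ofReal κ * (ENNReal.ofReal (((1 / 2 / Real.sqrt τ) ^ (c - 1)) ^ n) *
          ENNReal.ofReal ((1 / 2) ^ n)) ^ 2 := by
      rw [ENNReal.ofReal_mul hκ0.le, ENNReal.ofReal_pow (by positivity),
        ENNReal.ofReal_mul (by positivity)]
    rw [h1]
    ring
  rw [e3, hκ, hτ, real_id ht0 ht1 n hc]
  simp

lemma RM_mu {n : ℕ} {f : Fin n → ℝ → ℝ} (hf : ∀ i, ELC (f i)) {c : ℕ} (hc : 1 ≤ c) :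
    RM (mu f) (n * c) := by
  intro A hA θ hθ0 hθ1
  have hm := hA.isOpen.measurableSet
  have h1 : ENNReal.ofReal (θ ^ n) * mu f A ≤ mu f (θ • A) := by
    rw [← MK_smul hf hθ0 hm]
    unfold MK mu
    rw [withDensity_apply _ (hm.const_smul₀ θ)]
    refine setLIntegral_mono' (hm.const_smul₀ θ) (fun x _ => ENNReal.ofReal_le_ofReal ?_)
    refine Finset.prod_le_prod (fun i _ => (hf i).nonneg _) (fun i _ => ?_)
    have := (hf i).mul_le hθ0.le hθ1 (x i / θ)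
    rwa [mul_div_cancel₀ _ hθ0.ne'] at this
  refine le_trans (mul_le_mul' (ENNReal.ofReal_le_ofReal ?_) le_rfl) h1
  exact pow_le_pow_of_le_one hθ0.le hθ1 (Nat.le_mul_of_pos_right n hc)

lemma fin_mu {n : ℕ} {f : Fin n → ℝ → ℝ} (hf : ∀ i, ELC (f i)) (A : Set (Fin n → ℝ))
    (hA : Bornology.IsBounded A) : mu f A ≠ ∞ := by
  obtain ⟨R, hR⟩ := hA.subset_closedBall 0
  have h1 : mu f (Metric.closedBall 0 R) ≤
      ENNReal.ofReal (∏ i, f i 0) * volume (Metric.closedBall (0 : Fin n → ℝ) R) := by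
    unfold mu
    rw [withDensity_apply _ measurableSet_closedBall, ← setLIntegral_const]
    refine setLIntegral_mono' measurableSet_closedBall (fun x _ => ENNReal.ofReal_le_ofReal ?_)
    exact Finset.prod_le_prod (fun i _ => (hf i).nonneg _) (fun i _ => (hf i).le_zero _)
  refine ne_top_of_le_ne_top ?_ ((measure_mono hR).trans h1)
  exact ENNReal.mul_ne_top ENNReal.ofReal_ne_top measure_closedBall_lt_top.ne

/-- pairs covering a small set of coordinates -/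
lemma exists_pairs {n : ℕ} (hn : 2 ≤ n) (m : ℕ) : ∀ W : Finset (Fin n), W.card ≤ 2 * m →
    ∃ p : Fin m → Fin n × Fin n, (∀ g, (p g).1 ≠ (p g).2) ∧
      ∀ i ∈ W, ∃ g, i = (p g).1 ∨ i = (p g).2 := by
  have : Nontrivial (Fin n) := Fin.nontrivial_iff_two_le.2 hn
  induction m with
  | zero =>
    intro W hW
    refine ⟨fun g => g.elim0, fun g => g.elim0, fun i hi => ?_⟩
    have : W.card = 0 := by omega
    rw [Finset.card_eq_zero] at this
    rw [this] at hi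
    exact absurd hi (Finset.notMem_empty i)
  | succ m ih =>
    intro W hW
    -- choose a pair
    obtain ⟨a, b, hab, hcard⟩ : ∃ a b : Fin n, a ≠ b ∧ ((W.erase a).erase b).card ≤ 2 * m := by
      rcases W.eq_empty_or_nonempty with h | ⟨a, ha⟩
      · obtain ⟨a, b, hab⟩ := exists_pair_ne (Fin n)
        exact ⟨a, b, hab, by rw [h]; simp⟩
      · rcases (W.erase a).eq_empty_or_nonempty with h | ⟨b, hb⟩
        · obtain ⟨b, hb⟩ := exists_ne a
          exact ⟨a, b, hb.symm, by rw [h]; simp⟩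
        · refine ⟨a, b, (Finset.ne_of_mem_erase hb).symm, ?_⟩
          rw [Finset.card_erase_of_mem hb, Finset.card_erase_of_mem ha]
          omega
    obtain ⟨p, hp, hpW⟩ := ih _ hcard
    refine ⟨Fin.cons (a, b) p, ?_, ?_⟩
    · intro g
      refine Fin.cases ?_ (fun j => ?_) g
      · simpa using hab
      · simpa using hp j
    · intro i hi
      by_cases h1 : i = a
      · exact ⟨0, Or.inl (by simpa using h1)⟩
      by_cases h2 : i = b
      · exact ⟨0, Or.inr (by simpa using h2)⟩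
      obtain ⟨g, hg⟩ := hpW i (Finset.mem_erase.2 ⟨h2, Finset.mem_erase.2 ⟨h1, hi⟩⟩)
      exact ⟨g.succ, by simpa using hg⟩

/-- Brunn-Minkowski with exponent `1/(n c)` when at most `2 (c + 1)` factors are not constant. -/
theorem bm_const (hGL : PairGL) {n : ℕ} (hn : 2 ≤ n) {c : ℕ} (hc : 1 ≤ c) {f : Fin n → ℝ → ℝ}
    (hf : ∀ i, ELC (f i)) (W : Finset (Fin n)) (hW : W.card ≤ 2 * (c + 1))
    (hWc : ∀ i, i ∉ W → ∀ x y, f i x = f i y) {A B : Set (Fin n → ℝ)}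
    (hA : Convex ℝ A) (hB : Convex ℝ B) (hAn : A.Nonempty) (hBn : B.Nonempty)
    (hAs : ∀ x ∈ A, -x ∈ A) (hBs : ∀ x ∈ B, -x ∈ B) {t : ℝ} (ht0 : 0 ≤ t) (ht1 : t ≤ 1) :
    ENNReal.ofReal t * (mu f A) ^ (1 / ((n * c : ℕ) : ℝ)) +
      ENNReal.ofReal (1 - t) * (mu f B) ^ (1 / ((n * c : ℕ) : ℝ)) ≤
      (mu f (t • A + (1 - t) • B)) ^ (1 / ((n * c : ℕ) : ℝ)) := by
  obtain ⟨p, hp, hpW⟩ := exists_pairs hn (c + 1) W hW
  refine bm_general (withDensity_absolutelyContinuous _ _) (Nat.mul_pos (by omega) hc)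
    (fun A hA => fin_mu hf A hA) (RM_mu hf hc) (HD_mu hGL hf hc p hp (fun i => ?_)) hA hB hAn hBn
    hAs hBs ht0 ht1
  by_cases hi : i ∈ W
  · exact Or.inl (hpW i hi)
  · exact Or.inr (hWc i hi)

end Pool.Agent.Lib.MP_2d002d_gt.H29
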